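import Pool.Agent.Run7.h688.GK.EUL

/-!
# GK: the piece DET (determinant formula)
-/

set_option autoImplicit false

namespace Run7.h688.GK

open Polynomial Finset Run7.h400.GK

theorem dX_map {A B : Type} [CommRing A] [CommRing B] (f : A →+* B) {R : ℕ}
    (M : Matrix (Fin R) (Fin R) A) : PowerSeries.map f (dX M) = dX (M.map f) := by
  unfold dX
  rw [RingHom.map_det]
  congr 1
  refine Matrix.ext fun i j => ?_
  rw [RingHom.mapMatrix_apply, Matrix.map_apply, Matrix.sub_apply, Matrix.sub_apply,
    Matrix.smul_apply, Matrix.smul_apply, Matrix.map_apply, Matrix.map_apply, Matrix.map_apply,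
    map_sub, Matrix.one_apply, Matrix.one_apply, smul_eq_mul, smul_eq_mul, map_mul,
    PowerSeries.map_X, PowerSeries.map_C]
  split_ifs <;> simp

theorem dX_const {A : Type} [CommRing A] {R : ℕ} (M : Matrix (Fin R) (Fin R) A) :
    PowerSeries.constantCoeff (dX M) = 1 := by
  unfold dX
  rw [RingHom.map_det]
  have h1 : (PowerSeries.constantCoeff (R := A)).mapMatrix
      (1 - (PowerSeries.X : PowerSeries A) • M.map (PowerSeries.C (R := A))) = 1 := by
    refine Matrix.ext fun i j => ?_
    rw [RingHom.mapMatrix_apply, Matrix.map_apply, Matrix.sub_apply,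
      Matrix.smul_apply, Matrix.map_apply,
      map_sub, Matrix.one_apply, smul_eq_mul, map_mul, Matrix.one_apply]
    split_ifs <;> simp
  rw [h1, Matrix.det_one]

theorem dX_zero {A : Type} [CommRing A] {R : ℕ} :
    dX (0 : Matrix (Fin R) (Fin R) A) = 1 := by
  unfold dX
  have h1 : (0 : Matrix (Fin R) (Fin R) A).map (PowerSeries.C (R := A)) = 0 := by
    refine Matrix.ext fun i j => ?_
    simp
  rw [h1, smul_zero, sub_zero, Matrix.det_one]

theorem MatP_map {A B : Type} [CommRing A] [CommRing B] (f : A →+* B) (q R : ℕ) (P : A[X]) :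
    (MatP q P R).map f = MatP q (P.map f) R := by
  refine Matrix.ext fun i j => ?_
  rw [Matrix.map_apply]
  unfold MatP
  rw [Matrix.of_apply, Matrix.of_apply, ← coeff_map, Polynomial.map_mul, Polynomial.map_pow, map_X]

theorem trace_pow (hPOW : S_POW) {O : Type} [CommRing O] {q n R : ℕ} (hq : 2 ≤ q) (hn : 1 ≤ n)
    (hR : n ≤ R) {P : O[X]} (hP : P.natDegree ≤ n * (q - 1)) {r : ℕ} (hr : 1 ≤ r) :
    (MatP q P R ^ r).trace = ∑ i ∈ range n, (Pr q P r).coeff ((q ^ r - 1) * (i + 1)) := by
  obtain ⟨k, rfl⟩ : ∃ k, r = k + 1 := ⟨r - 1, by omega⟩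
  have h0 : MatM q P R 0 = MatP q P R := by
    refine Matrix.ext fun i j => ?_
    unfold MatM MatP
    rw [Matrix.of_apply, Matrix.of_apply, add_zero]
  have h1 := hPOW O q n 0 R P hq hn hP (by omega) k
  rw [h0, ← pow_succ] at h1
  obtain ⟨b, hb⟩ : ∃ b, q ^ (k + 1) = b + 1 := by
    have : 1 ≤ q ^ (k + 1) := Nat.one_le_pow _ _ (by omega)
    exact ⟨q ^ (k + 1) - 1, by omega⟩
  have hdeg := natDegree_Pr (by omega : 1 ≤ q) hP (k + 1)
  have h2 : ∀ i : Fin R, (MatP q P R ^ (k + 1)) i i =
      (Pr q P (k + 1)).coeff ((q ^ (k + 1) - 1) * ((i : ℕ) + 1)) := by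
    intro i
    rw [h1 i i, add_zero, coeff_X_pow_mul', hb]
    have h3 : (b + 1) * (i : ℕ) + (b + 1) - 1 = b * ((i : ℕ) + 1) + (i : ℕ) := by
      have : (b + 1) * (i : ℕ) + (b + 1) = b * ((i : ℕ) + 1) + (i : ℕ) + 1 := by ring
      omega
    rw [h3, if_pos (by omega), Nat.add_sub_cancel, Nat.add_sub_cancel]
  unfold Matrix.trace
  have h4 : ∀ i ∈ (Finset.univ : Finset (Fin R)), Matrix.diag (MatP q P R ^ (k + 1)) i =
      (fun i : ℕ => (Pr q P (k + 1)).coeff ((q ^ (k + 1) - 1) * (i + 1))) i := by
    intro i _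
    exact h2 i
  rw [Finset.sum_congr rfl h4,
    Fin.sum_univ_eq_sum_range (fun i : ℕ => (Pr q P (k + 1)).coeff ((q ^ (k + 1) - 1) * (i + 1))) R]
  symm
  apply Finset.sum_subset
  · intro i hi
    rw [Finset.mem_range] at hi ⊢
    omega
  · intro i _ hi
    rw [Finset.mem_range, not_lt] at hi
    apply coeff_eq_zero_of_natDegree_lt
    refine lt_of_le_of_lt hdeg ?_
    rw [hb]
    have hq2 : q ^ 1 ≤ q ^ (k + 1) := Nat.pow_le_pow_right (by omega) (by omega)
    have hb1 : 1 ≤ b := by
      rw [pow_one] at hq2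
      omega
    simp only [Nat.add_sub_cancel]
    calc n * b < (i + 1) * b := by
          apply Nat.mul_lt_mul_of_pos_right (by omega) hb1
      _ = b * (i + 1) := by ring

/-- the determinant formula over a domain of characteristic zero with a lift `t` -/
theorem det_lift (hPOW : S_POW) (hEUL : S_EUL) (hTR0 : S_TR0) (hJAC : S_JAC) (hUNI : S_UNI)
    {Fq Kb O : Type} [Field Fq] [Fintype Fq] [Field Kb] [Algebra Fq Kb]
    [IsAlgClosed Kb] [CommRing O] [IsDomain O] [CharZero O] (t : Kb →*₀ O)
    (ht : Function.Injective t) {q n R : ℕ} (hq : q = Fintype.card Fq) (hn : 1 ≤ n) (hR : n ≤ R)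
    {P : O[X]} (hP : P.natDegree ≤ n * (q - 1)) :
    (PowerSeries.mk fun j => ∑ c : Fin j → Fq, wt (fun ρ : Kb => P.eval (t ρ)) (mp c)) *
      (1 - PowerSeries.C ((q : O) * P.coeff 0) * PowerSeries.X) * dX ((q : O) • MatP q P R) =
      dX (MatP q P R) := by
  have hq2 : 2 ≤ q := by rw [hq]; exact Fintype.one_lt_card
  obtain ⟨a, ha⟩ : ∃ a, a = (q : O) * P.coeff 0 := ⟨_, rfl⟩
  obtain ⟨M, hM⟩ : ∃ M, M = MatP q P R := ⟨_, rfl⟩
  obtain ⟨Z, hZ⟩ : ∃ Z : PowerSeries O, Z =
    PowerSeries.mk fun j => ∑ c : Fin j → Fq, wt (fun ρ : Kb => P.eval (t ρ)) (mp c) := ⟨_, rfl⟩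
  obtain ⟨L, hL⟩ : ∃ L : PowerSeries O, L = 1 - PowerSeries.C a * PowerSeries.X := ⟨_, rfl⟩
  obtain ⟨D, hD⟩ : ∃ D, D = dX M := ⟨_, rfl⟩
  obtain ⟨Dq, hDq⟩ : ∃ Dq, Dq = dX ((q : O) • M) := ⟨_, rfl⟩
  rw [← ha, ← hM, ← hZ, ← hL, ← hD, ← hDq]
  obtain ⟨A, hA⟩ : ∃ A : PowerSeries O, A = PowerSeries.mk fun r => if r = 0 then 0 else a ^ r :=
    ⟨_, rfl⟩
  obtain ⟨T, hT⟩ : ∃ T : PowerSeries O, T =
    PowerSeries.mk fun r => if r = 0 then 0 else (M ^ r).trace := ⟨_, rfl⟩
  obtain ⟨Tq, hTq⟩ : ∃ Tq : PowerSeries O, Tq =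
    PowerSeries.mk fun r => if r = 0 then 0 else (((q : O) • M) ^ r).trace := ⟨_, rfl⟩
  obtain ⟨Sf, hSf⟩ : ∃ Sf : ℕ → O, Sf = fun r => ∑ ρ ∈ fr Kb q r,
    ∏ l ∈ range r, P.eval (t (ρ ^ (q ^ l))) := ⟨_, rfl⟩
  obtain ⟨Ss, hSs⟩ : ∃ Ss : PowerSeries O, Ss =
    PowerSeries.mk fun r => if r = 0 then 0 else Sf r := ⟨_, rfl⟩
  -- the sum of the traces
  have h1 : Ss = A + Tq - T := by
    rw [hSs, hA, hTq, hT]
    ext r
    rw [map_sub, map_add, PowerSeries.coeff_mk, PowerSeries.coeff_mk, PowerSeries.coeff_mk,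
      PowerSeries.coeff_mk]
    by_cases hr : r = 0
    · simp [hr]
    · rw [if_neg hr, if_neg hr, if_neg hr, if_neg hr]
      have hr1 : 1 ≤ r := by omega
      have h2 : Sf r = ∑ ρ ∈ fr Kb q r, (Pr q P r).eval (t ρ) := by
        rw [hSf]
        apply Finset.sum_congr rfl
        intro ρ _
        unfold Pr
        rw [Polynomial.eval_prod]
        apply Finset.prod_congr rfl
        intro l _
        rw [expand_eval, map_pow]
      rw [h2, hTR0 Fq Kb O t q n r P ht hq hn hP hr1, _root_.smul_pow, Matrix.trace_smul, hM,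
        trace_pow hPOW hq2 hn hR hP hr1, smul_eq_mul, ha, mul_pow]
      ring
  -- logarithmic derivatives
  have h2 : PowerSeries.X * PowerSeries.derivative O Z = Z * Ss := by
    ext N
    rw [mul_comm Z Ss, PowerSeries.coeff_mul N Ss Z]
    rw [Finset.Nat.sum_antidiagonal_eq_sum_range_succ
      (fun i j => PowerSeries.coeff i Ss * PowerSeries.coeff j Z) N]
    rw [Finset.sum_range_succ']
    have h3 : PowerSeries.coeff 0 Ss = 0 := by
      rw [hSs, PowerSeries.coeff_mk, if_pos rfl]
    rw [h3, zero_mul, add_zero]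
    rcases N with _ | N
    · simp
    · rw [PowerSeries.coeff_succ_X_mul, PowerSeries.coeff_derivative]
      have h4 := hEUL Fq Kb O (fun ρ : Kb => P.eval (t ρ)) (fun _ => 1) (N + 1)
      have h5 : ∀ c : Fin (N + 1) → Fq, ad (fun _ : Kb => (1 : O)) (mp c) = ((N + 1 : ℕ) : O) := by
        intro c
        unfold ad
        rw [Multiset.map_const', Multiset.sum_replicate, nsmul_eq_mul, mul_one]
        congr 1
        have h6 : ((mp c).map (algebraMap Fq Kb)).Splits := IsAlgClosed.splits _
        rw [← h6.natDegree_eq_card_roots, natDegree_map, mp_natDegree]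
      simp only [h5, one_mul] at h4
      rw [← Finset.mul_sum] at h4
      have h7 : PowerSeries.coeff (N + 1) Z =
          ∑ c : Fin (N + 1) → Fq, wt (fun ρ : Kb => P.eval (t ρ)) (mp c) := by
        rw [hZ, PowerSeries.coeff_mk]
      rw [h7]
      have h8 : ((N + 1 : ℕ) : O) = (N : O) + 1 := by push_cast; ring
      rw [h8, mul_comm] at h4
      rw [h4]
      apply Finset.sum_congr rfl
      intro r _
      have h9 : N + 1 - 1 - r = N + 1 - (r + 1) := by omega
      rw [h9, hZ, hSs, PowerSeries.coeff_mk, PowerSeries.coeff_mk, if_neg (by omega), hSf, ← hq]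
      ring
  have h3 : L * A = PowerSeries.C a * PowerSeries.X := by
    rw [hL, sub_mul, one_mul]
    ext N
    rw [map_sub, mul_assoc, PowerSeries.coeff_C_mul, PowerSeries.coeff_C_mul, hA,
      PowerSeries.coeff_mk]
    rcases N with _ | N
    · simp
    · rw [PowerSeries.coeff_succ_X_mul, PowerSeries.coeff_mk, if_neg (by omega)]
      rcases N with _ | N
      · simp
      · rw [if_neg (by omega), PowerSeries.coeff_X, if_neg (by omega)]
        ring
  have h4 : PowerSeries.X * PowerSeries.derivative O L = - (L * A) := by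
    rw [h3, hL, map_sub, Derivation.leibniz, PowerSeries.derivative_C, PowerSeries.derivative_X,
      PowerSeries.derivative_one]
    simp only [smul_eq_mul]
    ring
  have h5 : PowerSeries.X * PowerSeries.derivative O D = - (D * T) := by
    rw [hD, hT]; exact hJAC O R M
  have h6 : PowerSeries.X * PowerSeries.derivative O Dq = - (Dq * Tq) := by
    rw [hDq, hTq]; exact hJAC O R ((q : O) • M)
  apply hUNI O (Z * L * Dq) D
  · rw [map_mul, map_mul, hDq, dX_const, mul_one, hL, map_sub, map_one, map_mul]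
    rw [PowerSeries.constantCoeff_X, mul_zero, sub_zero, mul_one, hZ,
      ← PowerSeries.coeff_zero_eq_constantCoeff_apply, PowerSeries.coeff_mk]
    rw [Fintype.sum_unique]
    unfold wt mp
    simp
  · rw [hD]; exact dX_const _
  · rw [Derivation.leibniz, Derivation.leibniz]
    simp only [smul_eq_mul]
    have e1 : PowerSeries.X * (Z * L * PowerSeries.derivative O Dq +
        Dq * (Z * PowerSeries.derivative O L + L * PowerSeries.derivative O Z)) * D =
        (Z * L * (PowerSeries.X * PowerSeries.derivative O Dq) +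
          Dq * (Z * (PowerSeries.X * PowerSeries.derivative O L) +
            L * (PowerSeries.X * PowerSeries.derivative O Z))) * D := by ring
    rw [e1, h2, h4, h5, h6, h1]
    ring

theorem charZero_witt {p : ℕ} [hp : Fact p.Prime] {Kb : Type} [Field Kb] [CharP Kb p] :
    CharZero (WittVector p Kb) := by
  obtain ⟨c, hc⟩ := CharP.exists (WittVector p Kb)
  rcases CharP.char_is_prime_or_zero (WittVector p Kb) c with h | h
  · exfalso
    have h1 : ((c : ℕ) : WittVector p Kb) = 0 := CharP.cast_eq_zero _ _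
    have h2 : ((c : ℕ) : Kb) = 0 := by
      have h3 := congrArg (WittVector.constantCoeff (p := p) (R := Kb)) h1
      rwa [map_natCast, map_zero] at h3
    have h4 : p ∣ c := (CharP.cast_eq_zero_iff Kb p c).1 h2
    have h5 : p = c := (Nat.prime_dvd_prime_iff_eq hp.out h).1 h4
    rw [← h5] at h1
    exact WittVector.p_nonzero p Kb h1
  · subst h
    exact CharP.charP_to_charZero _

theorem prod_neg_swap {A : Type} [CommRing A] (x : A) (m : Multiset A) :
    (m.map fun ρ => ρ - x).prod = (-1) ^ (Multiset.card m) * (m.map fun ρ => x - ρ).prod := by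
  induction m using Multiset.induction with
  | empty => simp
  | cons a m ih =>
    rw [Multiset.map_cons, Multiset.prod_cons, ih, Multiset.map_cons, Multiset.prod_cons,
      Multiset.card_cons, pow_succ]
    ring

theorem t_DET : S_POW → S_EUL → S_TR0 → S_JAC → S_UNI → S_DET := by
  intro hPOW hEUL hTR0 hJAC hUNI Fq E _ _ _ _ q n R s hq hn hR hs j
  classical
  obtain ⟨p, hp⟩ := CharP.exists Fq
  have hpp : p.Prime := by
    rcases CharP.char_is_prime_or_zero Fq p with h | h
    · exact h
    · exact absurd h (CharP.char_ne_zero_of_finite Fq p)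
  have : Fact p.Prime := ⟨hpp⟩
  obtain ⟨Kb, hKb⟩ : ∃ Kb : Type, Kb = AlgebraicClosure E := ⟨_, rfl⟩
  subst hKb
  have hcE : CharP E p := charP_of_injective_algebraMap (algebraMap Fq E).injective p
  have hcK : CharP (AlgebraicClosure E) p :=
    charP_of_injective_algebraMap (algebraMap E (AlgebraicClosure E)).injective p
  have hcz : CharZero (WittVector p (AlgebraicClosure E)) := charZero_witt
  obtain ⟨t, ht⟩ : ∃ t : AlgebraicClosure E →*₀ WittVector p (AlgebraicClosure E),
      ∀ x, t x = WittVector.teichmuller p x :=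
    ⟨{ WittVector.teichmuller p with map_zero' := WittVector.teichmuller_zero p }, fun _ => rfl⟩
  obtain ⟨red, hred⟩ : ∃ red : WittVector p (AlgebraicClosure E) →+* AlgebraicClosure E,
      ∀ x, red (t x) = x := ⟨WittVector.constantCoeff, fun x => by
        rw [ht]; exact WittVector.teichmuller_coeff_zero p x⟩
  have htinj : Function.Injective t := by
    intro x y hxy
    rw [← hred x, ← hred y, hxy]
  have hq0 : ((q : ℕ) : AlgebraicClosure E) = 0 := by rw [hq]; exact card_cast Fq _
  obtain ⟨s', hs'⟩ : ∃ s' : Multiset (AlgebraicClosure E),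
    s' = s.map (algebraMap E (AlgebraicClosure E)) := ⟨_, rfl⟩
  have hs'c : Multiset.card s' = n * (q - 1) := by rw [hs', Multiset.card_map, hs]
  obtain ⟨P, hP⟩ : ∃ P : (WittVector p (AlgebraicClosure E))[X],
    P = (s'.map fun x => X - C (t x)).prod := ⟨_, rfl⟩
  have hPd : P.natDegree ≤ n * (q - 1) := by
    have h1 : (s'.map fun x => (X - C (t x) : (WittVector p (AlgebraicClosure E))[X])) =
        (s'.map t).map fun x => X - C x := by
      rw [Multiset.map_map]; rfl
    rw [hP, h1, natDegree_multiset_prod_X_sub_C_eq_card, Multiset.card_map, hs'c]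
  have key := det_lift hPOW hEUL hTR0 hJAC hUNI t htinj hq hn hR hPd
  have key2 := congrArg (PowerSeries.map red) key
  have hPr : P.map red = (s'.map fun x => X - C x).prod := by
    rw [hP, Polynomial.map_multiset_prod, Multiset.map_map]
    congr 1
    apply Multiset.map_congr rfl
    intro x _
    simp only [Function.comp_apply, Polynomial.map_sub, map_X, map_C, hred]
  have hPr2 : P.map red = ((s.map fun t => X - C t).prod).map
      (algebraMap E (AlgebraicClosure E)) := by
    rw [hPr, hs', Polynomial.map_multiset_prod, Multiset.map_map, Multiset.map_map]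
    congr 1
    apply Multiset.map_congr rfl
    intro x _
    simp only [Function.comp_apply, Polynomial.map_sub, map_X, map_C]
  rw [map_mul, map_mul, dX_map, dX_map, MatP_map] at key2
  have hz1 : ((q : WittVector p (AlgebraicClosure E)) • MatP q P R).map red = 0 := by
    refine Matrix.ext fun i j => ?_
    rw [Matrix.map_apply, Matrix.smul_apply, smul_eq_mul, map_mul, map_natCast, hq0, zero_mul,
      Matrix.zero_apply]
  have hz2 : PowerSeries.map red (1 - PowerSeries.C
      ((q : WittVector p (AlgebraicClosure E)) * P.coeff 0) * PowerSeries.X) = 1 := by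
    rw [map_sub, map_one, map_mul, PowerSeries.map_C, map_mul, map_natCast, hq0, zero_mul,
      map_zero, zero_mul, sub_zero]
  rw [hz1, hz2, dX_zero, mul_one, mul_one, hPr2, ← MatP_map, ← dX_map] at key2
  have key3 := congrArg (PowerSeries.coeff j) key2
  rw [PowerSeries.coeff_map, PowerSeries.coeff_map, PowerSeries.coeff_mk, map_sum] at key3
  apply (algebraMap E (AlgebraicClosure E)).injective
  rw [← key3, map_sum]
  apply Finset.sum_congr rfl
  intro c _
  -- the weight
  unfold wt
  rw [map_multiset_prod, Multiset.map_map, map_multiset_prod, Multiset.map_map]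
  have w1 : ∀ ρ : AlgebraicClosure E, red (P.eval (t ρ)) = (s'.map fun x => ρ - x).prod := by
    intro ρ
    have h1 : red (P.eval (t ρ)) = (P.map red).eval (red (t ρ)) := by
      rw [eval_map, eval₂_hom]
    rw [h1, hred, hPr, eval_multiset_prod, Multiset.map_map]
    congr 1
    apply Multiset.map_congr rfl
    intro x _
    simp
  have w2 : (((mp c).map (algebraMap Fq (AlgebraicClosure E))).roots.map
      (red ∘ fun ρ => P.eval (t ρ))).prod =
      (((mp c).map (algebraMap Fq (AlgebraicClosure E))).roots.map fun ρ =>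
        (s'.map fun x => ρ - x).prod).prod := by
    congr 1
    apply Multiset.map_congr rfl
    intro x _
    exact w1 x
  rw [w2, Multiset.prod_map_prod_map]
  have hspl : ((mp c).map (algebraMap Fq (AlgebraicClosure E))).Splits := IsAlgClosed.splits _
  have hmon : ((mp c).map (algebraMap Fq (AlgebraicClosure E))).Monic := (mp_monic c).map _
  have hcard : Multiset.card ((mp c).map (algebraMap Fq (AlgebraicClosure E))).roots = j := by
    rw [← hspl.natDegree_eq_card_roots, natDegree_map, mp_natDegree]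
  have w3 : ∀ x : AlgebraicClosure E,
      (((mp c).map (algebraMap Fq (AlgebraicClosure E))).roots.map fun ρ => ρ - x).prod =
      (-1) ^ j * aeval x (mp c) := by
    intro x
    have h1 : aeval x (mp c) = ((mp c).map (algebraMap Fq (AlgebraicClosure E))).eval x := by
      rw [eval_map, aeval_def]
    have h2 : ((mp c).map (algebraMap Fq (AlgebraicClosure E))).eval x =
        (((mp c).map (algebraMap Fq (AlgebraicClosure E))).roots.map fun ρ => x - ρ).prod := by
      conv_lhs => rw [hspl.eq_prod_roots_of_monic hmon]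
      rw [eval_multiset_prod, Multiset.map_map]
      congr 1
      apply Multiset.map_congr rfl
      intro y _
      simp
    rw [h1, h2]
    have h3 := prod_neg_swap x ((mp c).map (algebraMap Fq (AlgebraicClosure E))).roots
    rw [hcard] at h3
    exact h3
  simp only [w3]
  rw [Multiset.prod_map_mul, Multiset.map_const', Multiset.prod_replicate, hs'c]
  have hneg : ((-1 : AlgebraicClosure E)) ^ (q - 1) = 1 := by
    have h1 : (-1 : Fq) ^ (Fintype.card Fq - 1) = 1 :=
      FiniteField.pow_card_sub_one_eq_one (-1) (neg_ne_zero.2 one_ne_zero)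
    have h2 := congrArg (algebraMap Fq (AlgebraicClosure E)) h1
    rw [map_pow, map_neg, map_one, ← hq] at h2
    exact h2
  have hneg2 : (((-1 : AlgebraicClosure E)) ^ j) ^ (n * (q - 1)) = 1 := by
    rw [← pow_mul, show j * (n * (q - 1)) = (q - 1) * (j * n) by ring, pow_mul, hneg, one_pow]
  rw [hneg2, one_mul, hs', Multiset.map_map]
  congr 1
  apply Multiset.map_congr rfl
  intro x _
  simp only [Function.comp_apply]
  exact aeval_algebraMap_apply (AlgebraicClosure E) x (mp c)

end Run7.h688.GK
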