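import Pool.Agent.Run7.h400.GK.StmB
import Pool.Agent.Run7.h688.GK.DET

/-!
# GK: the piece CLA (eigenvectors in `W ⊗ M`)
-/

set_option autoImplicit false

namespace Run7.h688.GK

open Polynomial Finset TensorProduct Run7.h400.GK

/-- if the weighted sum of a functional vanishes, the functional vanishes -/
theorem functional_zero {p : ℕ} [hp : Fact p.Prime] {E : Type} [Field E] [Fintype E] [CharP E p]
    [DecidableEq E] (c : E →+ ZMod p)
    (hS : ∑ z : Eˣ, (z : E) * ZMod.castHom (dvd_refl p) E (c ((z⁻¹ : Eˣ) : E)) = 0) :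
    ∀ γ, c γ = 0 := by
  let _ : Algebra (ZMod p) E := ZMod.algebra E p
  obtain ⟨ι, hι⟩ : ∃ ι : ZMod p →+* E, ι = ZMod.castHom (dvd_refl p) E := ⟨_, rfl⟩
  rw [← hι] at hS
  have hια : ∀ a, ι a = algebraMap (ZMod p) E a := by
    intro a
    rw [Subsingleton.elim ι (algebraMap (ZMod p) E)]
  obtain ⟨f, hf⟩ : ∃ f, f = Module.finrank (ZMod p) E := ⟨_, rfl⟩
  have hcard : Fintype.card E = p ^ f := by
    rw [hf, Module.card_eq_pow_finrank (K := ZMod p) (V := E), ZMod.card]
  have hf0 : 0 < f := by rw [hf]; exact Module.finrank_pos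
  have htr : ∀ x : E, ι (Algebra.trace (ZMod p) E x) = ∑ i ∈ range f, x ^ (p ^ i) := by
    intro x
    rw [hια, FiniteField.algebraMap_trace_eq_sum_pow, hf, Nat.card_zmod]
  -- the power sums
  have hpow : ∀ i < f, ∑ z : Eˣ, (z : E) ^ (p ^ i) * ((z⁻¹ : Eˣ) : E) =
      if i = 0 then -1 else 0 := by
    intro i hi
    have h1 : ∀ z : Eˣ, (z : E) ^ (p ^ i) * ((z⁻¹ : Eˣ) : E) = (z : E) ^ (p ^ i - 1) := by
      intro z
      have h2 : 1 ≤ p ^ i := Nat.one_le_pow _ _ hp.out.pos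
      obtain ⟨m, hm⟩ : ∃ m, p ^ i = m + 1 := ⟨p ^ i - 1, by omega⟩
      rw [hm, pow_succ, mul_assoc, Units.mul_inv, mul_one, Nat.add_sub_cancel]
    rw [Finset.sum_congr rfl fun z _ => h1 z, FiniteField.sum_pow_units, hcard]
    by_cases hi0 : i = 0
    · rw [if_pos hi0, hi0, if_pos (by simp)]
    · rw [if_neg hi0, if_neg]
      intro h3
      have h4 : p ^ i < p ^ f := Nat.pow_lt_pow_right hp.out.one_lt hi
      have h5 : p ^ 1 ≤ p ^ i := Nat.pow_le_pow_right hp.out.pos (by omega)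
      have h6 := hp.out.one_lt
      rw [pow_one] at h5
      have := Nat.le_of_dvd (by omega) h3
      omega
  have hrec : ∀ γ : E, ∑ z : Eˣ, ι (Algebra.trace (ZMod p) E ((z : E) * γ)) *
      ((z⁻¹ : Eˣ) : E) = - γ := by
    intro γ
    have h1 : ∀ z : Eˣ, ι (Algebra.trace (ZMod p) E ((z : E) * γ)) * ((z⁻¹ : Eˣ) : E) =
        ∑ i ∈ range f, γ ^ (p ^ i) * ((z : E) ^ (p ^ i) * ((z⁻¹ : Eˣ) : E)) := by
      intro z
      rw [htr, Finset.sum_mul]
      apply Finset.sum_congr rfl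
      intro i _
      rw [mul_pow]
      ring
    rw [Finset.sum_congr rfl fun z _ => h1 z, Finset.sum_comm]
    have h2 : ∀ i ∈ range f, ∑ z : Eˣ, γ ^ (p ^ i) * ((z : E) ^ (p ^ i) * ((z⁻¹ : Eˣ) : E)) =
        if i = 0 then - γ else 0 := by
      intro i hi
      rw [← Finset.mul_sum, hpow i (Finset.mem_range.1 hi)]
      by_cases hi0 : i = 0
      · rw [if_pos hi0, if_pos hi0, hi0]; simp
      · rw [if_neg hi0, if_neg hi0, mul_zero]
    rw [Finset.sum_congr rfl h2, Finset.sum_ite_eq', if_pos (Finset.mem_range.2 hf0)]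
  have hfix : ∀ (a : ZMod p) (i : ℕ), ι a ^ (p ^ i) = ι a := by
    intro a i
    rw [← map_pow, ZMod.pow_card_pow]
  intro γ
  have h1 : c γ = ∑ z : Eˣ, Algebra.trace (ZMod p) E ((z : E) * (-γ)) * c ((z⁻¹ : Eˣ) : E) := by
    have h2 := hrec (-γ)
    rw [neg_neg] at h2
    have h3 := congrArg c h2
    rw [map_sum] at h3
    rw [← h3]
    apply Finset.sum_congr rfl
    intro z _
    rw [hια, ← Algebra.smul_def, ZMod.map_smul, smul_eq_mul]
  apply ι.injective
  rw [map_zero, h1, map_sum]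
  have h4 : ∀ z : Eˣ, ι (Algebra.trace (ZMod p) E ((z : E) * (-γ)) * c ((z⁻¹ : Eˣ) : E)) =
      ∑ i ∈ range f, (-γ) ^ (p ^ i) * ((z : E) * ι (c ((z⁻¹ : Eˣ) : E))) ^ (p ^ i) := by
    intro z
    rw [map_mul, htr, Finset.sum_mul]
    apply Finset.sum_congr rfl
    intro i _
    rw [mul_pow, mul_pow, hfix]
    ring
  rw [Finset.sum_congr rfl fun z _ => h4 z, Finset.sum_comm]
  apply Finset.sum_eq_zero
  intro i _
  rw [← Finset.mul_sum, ← sum_pow_char_pow, hS, zero_pow (by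
    have := Nat.one_le_pow i p hp.out.pos
    omega), mul_zero]

theorem exists_functional1 {p : ℕ} [hp : Fact p.Prime] {N : Type} [AddCommGroup N]
    [Module (ZMod p) N] (n : N) (hn : n ≠ 0) : ∃ l : N →+ ZMod p, l n ≠ 0 := by
  have hpr : Module.Projective (ZMod p) N := Module.Projective.of_free
  by_contra hc
  push Not at hc
  apply hn
  have h1 := (Module.forall_dual_apply_eq_zero_iff (V := N) (ZMod p) n).1
  apply h1
  intro φ
  exact hc φ.toAddMonoidHom

theorem exists_functional {p : ℕ} [hp : Fact p.Prime] {N : Type} [AddCommGroup N]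
    (h : ∀ n : N, p • n = 0) (n : N) (hn : n ≠ 0) : ∃ l : N →+ ZMod p, l n ≠ 0 := by
  let _ : Module (ZMod p) N := AddCommGroup.zmodModule h
  exact exists_functional1 n hn

theorem t_CLA : S_CLA := by
  intro p hp E G M _ _ _ _ u ρ k κ hκ hκ0
  classical
  have hcz : CharZero (WittVector p E) := charZero_witt
  refine ⟨∑ z : Eˣ, (WittVector.teichmuller p (z : E)) ⊗ₜ[ℤ] (κ ((z⁻¹ : Eˣ) : E)), ?_, ?_⟩
  · intro hx
    have hpk : ∀ e, p • κ e = 0 := by
      intro e
      rw [← map_nsmul, nsmul_eq_mul, CharP.cast_eq_zero, zero_mul, map_zero]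
    have hN : ∀ n : κ.range, p • n = 0 := by
      rintro ⟨n, e, rfl⟩
      apply Subtype.ext
      exact hpk e
    obtain ⟨γ₀, hγ₀⟩ : ∃ γ₀, κ γ₀ ≠ 0 := by
      by_contra h
      push Not at h
      exact hκ0 (AddMonoidHom.ext h)
    obtain ⟨κ', hκ'⟩ : ∃ κ' : E →+ κ.range, ∀ e, (κ' e : M) = κ e :=
      ⟨κ.rangeRestrict, fun _ => rfl⟩
    have h0 : κ' γ₀ ≠ 0 := by
      intro h
      apply hγ₀
      rw [← hκ', h]
      rfl
    obtain ⟨l, hl⟩ := exists_functional hN (κ' γ₀) h0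
    have hinj := Module.Flat.lTensor_preserves_injective_linearMap (M := WittVector p E)
      (κ.range.subtype.toIntLinearMap) (fun a b hab => Subtype.ext hab)
    obtain ⟨xN, hxN⟩ : ∃ xN : (WittVector p E) ⊗[ℤ] κ.range,
      xN = ∑ z : Eˣ, (WittVector.teichmuller p (z : E)) ⊗ₜ[ℤ] (κ' ((z⁻¹ : Eˣ) : E)) := ⟨_, rfl⟩
    have hxN0 : xN = 0 := by
      apply hinj
      rw [map_zero, ← hx, hxN, map_sum]
      apply Finset.sum_congr rfl
      intro z _
      rw [LinearMap.lTensor_tmul]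
      congr 1
      exact hκ' _
    obtain ⟨Φ, hΦ⟩ : ∃ Φ : (WittVector p E) ⊗[ℤ] κ.range →+ E,
        ∀ w n, Φ (w ⊗ₜ[ℤ] n) = WittVector.constantCoeff w *
          ZMod.castHom (dvd_refl p) E (l n) := by
      refine ⟨TensorProduct.liftAddHom (((AddMonoidHom.mul (R := E)).comp
        (WittVector.constantCoeff : WittVector p E →+* E).toAddMonoidHom).compl₂
          ((ZMod.castHom (dvd_refl p) E).toAddMonoidHom.comp l)) ?_, ?_⟩
      · intro r w n
        change WittVector.constantCoeff (r • w) * ZMod.castHom (dvd_refl p) E (l n) =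
          WittVector.constantCoeff w * ZMod.castHom (dvd_refl p) E (l (r • n))
        rw [map_zsmul, map_zsmul, map_zsmul, smul_mul_assoc, mul_smul_comm]
      · intro w n
        rfl
    have h1 := functional_zero (l.comp κ') (by
      have h2 : Φ xN = 0 := by rw [hxN0, map_zero]
      rw [hxN, map_sum] at h2
      rw [← h2]
      apply Finset.sum_congr rfl
      intro z _
      rw [hΦ]
      congr 1)
    exact hl (h1 γ₀)
  · intro σ
    obtain ⟨v, hv⟩ : ∃ v, v = u σ ^ k := ⟨_, rfl⟩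
    have hteich : WittVector.teichmuller p (u σ) ^ k = WittVector.teichmuller p v := by
      rw [hv, map_pow]
    rw [hteich, map_sum, Finset.smul_sum]
    have h1 : ∀ z : Eˣ, LinearMap.lTensor (WittVector p E) (ρ σ).toIntLinearMap
        ((WittVector.teichmuller p (z : E)) ⊗ₜ[ℤ] (κ ((z⁻¹ : Eˣ) : E))) =
        (WittVector.teichmuller p (z : E)) ⊗ₜ[ℤ] (κ (v * ((z⁻¹ : Eˣ) : E))) := by
      intro z
      rw [LinearMap.lTensor_tmul, hv, ← hκ]
      rfl
    rw [Finset.sum_congr rfl fun z _ => h1 z]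
    by_cases hv0 : v = 0
    · rw [hv0]
      apply Finset.sum_congr rfl
      intro z _
      rw [zero_mul, map_zero, TensorProduct.tmul_zero, WittVector.teichmuller_zero, zero_smul]
    · obtain ⟨V, hV⟩ : ∃ V : Eˣ, (V : E) = v := ⟨Units.mk0 v hv0, rfl⟩
      apply Fintype.sum_equiv (Equiv.mulLeft V⁻¹)
      intro z
      rw [Equiv.coe_mulLeft, TensorProduct.smul_tmul', smul_eq_mul, ← map_mul]
      congr 2
      · rw [Units.val_mul, ← mul_assoc, ← hV, Units.mul_inv, one_mul]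
      · rw [mul_inv, inv_inv, Units.val_mul, hV]

end Run7.h688.GK
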