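import Pool.Agent.Run7.h400.GK.StmA
import Pool.Agent.Run7.h400.GK.StmK

/-!
# GK: the piece GS1 (Gauss sums in the tensor product)
-/

set_option autoImplicit false

namespace Run7.h688.GK

open Polynomial Finset TensorProduct Run7.h400.GK

section

variable {Fq E F : Type} [Field Fq] [Field E] [Fintype E] [Algebra Fq E]
  [Field F] [Algebra Fq F]

open Classical in
/-- substitution in a Gauss sum -/
theorem gauss_subst (t : E → F) (c : E) (m : ℕ) (hm : c ≠ 0 ∨ (0 < m ∧ t 0 = 0)) :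
    ∑ z ∈ univ.filter (fun z : E => z ≠ 0), ((z⁻¹) ^ m) ⊗ₜ[Fq] (t (c * z)) =
      ((c ^ m) ⊗ₜ[Fq] (1 : F)) *
        ∑ z ∈ univ.filter (fun z : E => z ≠ 0), ((z⁻¹) ^ m) ⊗ₜ[Fq] (t z) := by
  by_cases hc : c = 0
  · rcases hm with h | ⟨h1, h2⟩
    · exact absurd hc h
    · subst hc
      rw [zero_pow (by omega), TensorProduct.zero_tmul, zero_mul]
      apply Finset.sum_eq_zero
      intro z _
      rw [zero_mul, h2, TensorProduct.tmul_zero]
  · rw [Finset.mul_sum]
    refine Finset.sum_bij (fun z _ => c * z) ?_ ?_ ?_ ?_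
    · intro z hz
      rw [Finset.mem_filter] at hz ⊢
      exact ⟨Finset.mem_univ _, mul_ne_zero hc hz.2⟩
    · intro z _ z' _ h
      exact mul_left_cancel₀ hc h
    · intro z hz
      rw [Finset.mem_filter] at hz
      refine ⟨c⁻¹ * z, ?_, ?_⟩
      · rw [Finset.mem_filter]
        exact ⟨Finset.mem_univ _, mul_ne_zero (inv_ne_zero hc) hz.2⟩
      · rw [← mul_assoc, mul_inv_cancel₀ hc, one_mul]
    · intro z _
      rw [Algebra.TensorProduct.tmul_mul_tmul, one_mul, ← mul_pow]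
      congr 2
      rw [mul_inv, ← mul_assoc, mul_inv_cancel₀ hc, one_mul]

end

theorem t_GS1 : S_CAR → S_CAL → S_FRB → S_TOR → S_GS1 := by
  classical
  intro _ _ hFRB hTOR Fq E F _ _ _ _ _ _ _ _ _ _ _ w θ q d lm hDat hCFD
  obtain ⟨hf1, -, -, -, -, -⟩ := hFRB Fq E w θ q d hDat
  obtain ⟨-, -, ht0, -, ht5, -⟩ := hTOR Fq E F w θ q d lm hDat hCFD
  have hq := hDat.hq
  have hq1 : 1 < q := by rw [hq]; exact Fintype.one_lt_card
  obtain ⟨t, ht⟩ : ∃ t : E → F, t = fun z => tz (Fq := Fq) q θ d lm z := ⟨_, rfl⟩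
  have hz0 : t 0 = 0 := by rw [ht]; exact (ht0 0).2 rfl
  have hg : ∀ i, gM (Fq := Fq) q θ d lm i =
      - ∑ z ∈ univ.filter (fun z : E => z ≠ 0), ((z⁻¹) ^ (q ^ i)) ⊗ₜ[Fq] (t z) := by
    intro i; rw [ht]; rfl
  have hfr : ∀ x : E ⊗[Fq] F, x ^ q = FiniteField.frobeniusAlgHom Fq (E ⊗[Fq] F) x := by
    intro x; rw [hq]; rfl
  refine ⟨?_, ?_, ?_, ?_, ?_⟩
  · intro i
    rw [hg i, hfr, map_neg, map_sum, hg (i + 1), mul_neg, sub_mul, neg_sub]
    have h1 := gauss_subst (Fq := Fq) t θ (q ^ (i + 1)) (Or.inr ⟨by positivity, hz0⟩)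
    rw [← h1]
    have h2 : TM Fq E F * ∑ z ∈ univ.filter (fun z : E => z ≠ 0),
        ((z⁻¹) ^ (q ^ (i + 1))) ⊗ₜ[Fq] (t z) =
        ∑ z ∈ univ.filter (fun z : E => z ≠ 0),
          ((z⁻¹) ^ (q ^ (i + 1))) ⊗ₜ[Fq] (algebraMap Fq[X] F X * t z) := by
      rw [Finset.mul_sum]
      apply Finset.sum_congr rfl
      intro z _
      unfold TM
      rw [Algebra.TensorProduct.tmul_mul_tmul, one_mul]
    rw [h2, ← Finset.sum_sub_distrib, ← Finset.sum_neg_distrib]
    apply Finset.sum_congr rfl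
    intro z _
    rw [← hfr, Algebra.TensorProduct.tmul_pow, ← pow_mul, ← pow_succ, ← TensorProduct.tmul_sub,
      ← TensorProduct.tmul_neg]
    congr 1
    have h3 : algebraMap Fq[X] F X * t z + t z ^ q = t (θ * z) := by
      rw [ht]; exact ht5 z
    rw [← h3]
    ring
  · intro i
    rw [hg, hg]
    congr 1
    apply Finset.sum_congr rfl
    intro z _
    congr 1
    rw [pow_add, pow_mul, ← hDat.hd]
    exact FiniteField.pow_card _
  · intro s c hc hs i
    rw [hg i, map_neg, map_sum, mul_neg]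
    congr 1
    rw [← gauss_subst (Fq := Fq) t c (q ^ i) (Or.inl hc)]
    apply Finset.sum_congr rfl
    intro z _
    rw [Algebra.TensorProduct.map_tmul]
    congr 1
    rw [ht]
    exact hs z
  · intro s hs i
    rw [hg i, map_neg, map_sum, hg (i + 1)]
    congr 1
    apply Finset.sum_congr rfl
    intro z _
    rw [Algebra.TensorProduct.map_tmul, hs, ← pow_mul, ← pow_succ]
    rfl
  · have h1 : aeval (TM Fq E F) (w.map (algebraMap Fq E)) =
        (1 : E) ⊗ₜ[Fq] (algebraMap Fq[X] F w) := by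
      rw [aeval_map_algebraMap]
      have h2 : TM Fq E F = (Algebra.TensorProduct.includeRight : F →ₐ[Fq] E ⊗[Fq] F)
          (algebraMap Fq[X] F X) := rfl
      rw [h2, aeval_algHom_apply, aeval_algebraMap_apply, aeval_X_left_apply]
      rfl
    rw [← h1, hf1, map_prod]
    apply Finset.prod_congr rfl
    intro i _
    rw [map_sub, aeval_X, aeval_C]
    rfl

end Run7.h688.GK
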