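import Pool.Agent.Run7.h400.GK.StmA
import Pool.Agent.Run7.h400.GK.StmK

/-!
# GK: the piece GS3 (the fixed point property)
-/

set_option autoImplicit false

namespace Run7.h688.GK

open Polynomial Finset TensorProduct Run7.h400.GK

section cart

variable {F : Type} [Field F] {p : ℕ} {T : F} {Cr : F →+ F}

theorem cart1 (hp : p.Prime) (h : IsCart p T Cr) (n : ℕ) :
    (∀ a, n + 1 = p * (a + 1) → Cr (T ^ n) = T ^ a) ∧ (¬ p ∣ n + 1 → Cr (T ^ n) = 0) := by
  obtain ⟨h1, h2, h3⟩ := h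
  have hp1 := hp.one_lt
  constructor
  · intro a ha
    have h4 : n = a * p + (p - 1) := by
      have : p * (a + 1) = a * p + p := by ring
      omega
    rw [h4, pow_add, pow_mul, h1, h3, mul_one]
  · intro hd
    have h4 : n % p + 1 < p := by
      have h5 := Nat.mod_lt n hp.pos
      by_contra h6
      apply hd
      have h7 : n % p = p - 1 := by omega
      have h8 := Nat.div_add_mod n p
      refine ⟨n / p + 1, ?_⟩
      have : p * (n / p + 1) = p * (n / p) + p := by ring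
      omega
    have h5 : T ^ n = (T ^ (n / p)) ^ p * T ^ (n % p) := by
      rw [← pow_mul, ← pow_add, mul_comm (n / p) p, Nat.div_add_mod]
    rw [h5, h1, h2 _ h4, mul_zero]

theorem cart_iter (hp : p.Prime) (h : IsCart p T Cr) (j : ℕ) : ∀ n : ℕ,
    (∀ i, n + 1 = p ^ j * (i + 1) → Cr^[j] (T ^ n) = T ^ i) ∧
      (¬ p ^ j ∣ n + 1 → Cr^[j] (T ^ n) = 0) := by
  induction j with
  | zero =>
    intro n
    constructor
    · intro i hi
      rw [pow_zero, one_mul] at hi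
      have : n = i := by omega
      rw [this]
      rfl
    · intro hd
      exact absurd (by rw [pow_zero]; exact one_dvd _) hd
  | succ j ih =>
    intro n
    obtain ⟨c1, c2⟩ := cart1 hp h n
    constructor
    · intro i hi
      obtain ⟨a, ha⟩ : ∃ a, a + 1 = p ^ j * (i + 1) := by
        have : 0 < p ^ j * (i + 1) := Nat.mul_pos (pow_pos hp.pos j) (by omega)
        exact ⟨p ^ j * (i + 1) - 1, by omega⟩
      rw [Function.iterate_succ_apply, c1 a (by rw [ha, hi]; ring)]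
      exact (ih a).1 i ha
    · intro hd
      rw [Function.iterate_succ_apply]
      by_cases h1 : p ∣ n + 1
      · obtain ⟨m, hm⟩ := h1
        obtain ⟨a, rfl⟩ : ∃ a, m = a + 1 := by
          rcases m with _ | m
          · simp at hm
          · exact ⟨m, rfl⟩
        rw [c1 a hm]
        apply (ih a).2
        intro h2
        apply hd
        rw [hm, pow_succ, mul_comm (p ^ j) p]
        exact Nat.mul_dvd_mul_left p h2
      · rw [c2 h1]
        exact iterate_map_zero Cr j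

end cart

section lam

variable {E : Type} [CommRing E]

theorem Lam_add {Q : ℕ} (hQ : 1 ≤ Q) (g h : E[X]) : Lam Q (g + h) = Lam Q g + Lam Q h := by
  ext i
  rw [coeff_add, coeff_Lam hQ, coeff_Lam hQ, coeff_Lam hQ, coeff_add]

theorem Lam_monomial {Q : ℕ} (hQ : 1 ≤ Q) (n : ℕ) (a : E) :
    (∀ i, n + 1 = Q * (i + 1) → Lam Q (monomial n a) = monomial i a) ∧
      (¬ Q ∣ n + 1 → Lam Q (monomial n a) = 0) := by
  constructor
  · intro i hi
    ext j
    rw [coeff_Lam hQ, coeff_monomial, coeff_monomial]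
    by_cases hij : i = j
    · subst hij
      have : Q * (i + 1) = Q * i + Q := by ring
      rw [if_pos rfl, if_pos (by omega)]
    · rw [if_neg hij, if_neg]
      intro h1
      apply hij
      have h2 : Q * (i + 1) = Q * (j + 1) := by
        have : Q * (j + 1) = Q * j + Q := by ring
        omega
      have := Nat.eq_of_mul_eq_mul_left (by omega) h2
      omega
  · intro hd
    ext j
    rw [coeff_Lam hQ, coeff_monomial, coeff_zero, if_neg]
    intro h1
    apply hd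
    refine ⟨j + 1, ?_⟩
    have : Q * (j + 1) = Q * j + Q := by ring
    omega

end lam

section main

variable {Fq E F : Type} [Field Fq] [Field E] [Algebra Fq E] [Field F] [Algebra Fq[X] F]
  [Algebra Fq F]

omit [Algebra Fq[X] F] in
theorem cm_iter_tmul {p : ℕ} {Cr : F →+ F} {CM : E ⊗[Fq] F →+ E ⊗[Fq] F}
    (h : ∀ (e : E) (x : F), CM ((e ^ p) ⊗ₜ[Fq] x) = e ⊗ₜ[Fq] (Cr x)) (j : ℕ) :
    ∀ (e : E) (x : F), CM^[j] ((e ^ (p ^ j)) ⊗ₜ[Fq] x) = e ⊗ₜ[Fq] (Cr^[j] x) := by
  induction j with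
  | zero => intro e x; simp
  | succ j ih =>
    intro e x
    rw [Function.iterate_succ_apply, pow_succ, pow_mul, h, ih, Function.iterate_succ_apply]

omit [Algebra Fq[X] F] in
theorem cm_iter_mul {p : ℕ} {CM : E ⊗[Fq] F →+ E ⊗[Fq] F}
    (h : ∀ x y, CM (x ^ p * y) = x * CM y) (j : ℕ) :
    ∀ x y, CM^[j] (x ^ (p ^ j) * y) = x * CM^[j] y := by
  induction j with
  | zero => intro x y; simp
  | succ j ih =>
    intro x y
    rw [Function.iterate_succ_apply, pow_succ, pow_mul, h, ih, Function.iterate_succ_apply]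

theorem phi_aeval (s : E →ₐ[Fq] E) (f : E[X]) :
    Algebra.TensorProduct.map s (AlgHom.id Fq F) (aeval (TM Fq E F) f) =
      aeval (TM Fq E F) (f.map (s : E →+* E)) := by
  induction f using Polynomial.induction_on' with
  | add f g hf hg => rw [map_add, map_add, hf, hg, Polynomial.map_add, map_add]
  | monomial n a =>
    have h1 : Algebra.TensorProduct.map s (AlgHom.id Fq F) (TM Fq E F) = TM Fq E F := by
      unfold TM
      rw [Algebra.TensorProduct.map_tmul, map_one]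
      rfl
    rw [aeval_monomial, map_monomial, aeval_monomial, map_mul, map_pow, h1]
    congr 1

theorem claimC {p f₀ q : ℕ} (hp : p.Prime) (hq : q = p ^ f₀) {Cr : F →+ F}
    {CM : E ⊗[Fq] F →+ E ⊗[Fq] F} (s : E →ₐ[Fq] E)
    (hC : IsCart p (algebraMap Fq[X] F X) Cr)
    (h : ∀ (e : E) (x : F), CM ((e ^ p) ⊗ₜ[Fq] x) = e ⊗ₜ[Fq] (Cr x))
    (hs : ∀ e, s e = e ^ q) (f : E[X]) :
    CM^[f₀] (aeval (TM Fq E F) (f.map (s : E →+* E))) = aeval (TM Fq E F) (Lam q f) := by
  have hq1 : 1 ≤ q := by rw [hq]; exact Nat.one_le_pow _ _ hp.pos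
  induction f using Polynomial.induction_on' with
  | add f g hf hg =>
    rw [Polynomial.map_add, map_add, iterate_map_add, hf, hg, Lam_add hq1, map_add]
  | monomial n a =>
    have h1 : ∀ (m : ℕ) (b : E), aeval (TM Fq E F) (monomial m b) =
        b ⊗ₜ[Fq] ((algebraMap Fq[X] F X) ^ m) := by
      intro m b
      rw [aeval_monomial]
      unfold TM
      rw [Algebra.TensorProduct.tmul_pow, one_pow]
      have h2 : algebraMap E (E ⊗[Fq] F) b = b ⊗ₜ[Fq] (1 : F) := rfl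
      rw [h2, Algebra.TensorProduct.tmul_mul_tmul, mul_one, one_mul]
    have h3 : (s : E →+* E) a = a ^ (p ^ f₀) := by
      rw [← hq]; exact hs a
    rw [map_monomial, h1, h3, cm_iter_tmul h]
    obtain ⟨c1, c2⟩ := cart_iter hp hC f₀ n
    obtain ⟨l1, l2⟩ := Lam_monomial hq1 n a
    by_cases hd : q ∣ n + 1
    · obtain ⟨m, hm⟩ := hd
      obtain ⟨i, rfl⟩ : ∃ i, m = i + 1 := by
        rcases m with _ | m
        · simp at hm
        · exact ⟨m, rfl⟩
      rw [l1 i hm, h1, c1 i (by rw [← hq]; exact hm)]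
    · rw [l2 hd, c2 (by rw [← hq]; exact hd), TensorProduct.tmul_zero, map_zero]

end main

theorem t_GS3 : S_GS1 → S_DIG → S_GS3 := by
  intro hGS1 hDIG Fq E F _ _ _ _ _ _ _ _ _ _ _ w θ p f₀ q d k lm Cr CM s f hDat hCFD hp hqp hk0 hk
    hqk hC hCM1 hCM2 hs hf
  obtain ⟨g1, -, -, g4, g5⟩ := hGS1 Fq E F w θ q d lm hDat hCFD
  have hq := hDat.hq
  have hq1 : 1 < q := by rw [hq]; exact Fintype.one_lt_card
  obtain ⟨-, -, hdig, -, -, -⟩ := hDIG q d k (by omega) hDat.hd1 hk0 hk hqk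
  obtain ⟨g, hg⟩ : ∃ g : ℕ → E ⊗[Fq] F, g = fun i => gM (Fq := Fq) q θ d lm i := ⟨_, rfl⟩
  have g1' : ∀ i, g i ^ q = ((θ ^ (q ^ (i + 1))) ⊗ₜ[Fq] (1 : F) - TM Fq E F) * g (i + 1) := by
    intro i; rw [hg]; exact g1 i
  have g4' : ∀ i, Algebra.TensorProduct.map s (AlgHom.id Fq F) (g i) = g (i + 1) := by
    intro i; rw [hg]; exact g4 s hs i
  obtain ⟨W, hW⟩ : ∃ W : E ⊗[Fq] F, W = (1 : E) ⊗ₜ[Fq] (algebraMap Fq[X] F w) := ⟨_, rfl⟩
  obtain ⟨V, hV⟩ : ∃ V : E ⊗[Fq] F, V = (1 : E) ⊗ₜ[Fq] (algebraMap Fq[X] F w)⁻¹ := ⟨_, rfl⟩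
  have hw0 : algebraMap Fq[X] F w ≠ 0 := by
    have h1 : Function.Injective (algebraMap Fq[X] F) := by
      rw [IsScalarTower.algebraMap_eq Fq[X] (RatFunc Fq) F]
      exact (algebraMap (RatFunc Fq) F).injective.comp (IsFractionRing.injective Fq[X] (RatFunc Fq))
    intro h2
    exact hDat.monic.ne_zero (h1 (by rw [h2, map_zero]))
  have hWV : W * V = 1 := by
    rw [hW, hV, Algebra.TensorProduct.tmul_mul_tmul, one_mul, mul_inv_cancel₀ hw0]
    rfl
  have hWprod : W = ∏ i ∈ range d, (TM Fq E F - (θ ^ (q ^ (i + 1))) ⊗ₜ[Fq] (1 : F)) := by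
    rw [hW, g5]
    obtain ⟨e, he⟩ : ∃ e, d = e + 1 := ⟨d - 1, by have := hDat.hd1; omega⟩
    have h1 : θ ^ (q ^ d) = θ := by rw [← hDat.hd]; exact FiniteField.pow_card θ
    rw [he, Finset.prod_range_succ', Finset.prod_range_succ, ← he, h1, pow_zero, pow_one]
  have hneg : (-1 : E ⊗[Fq] F) ^ (q - 1) = 1 := by
    have h1 : (-1 : Fq) ^ (Fintype.card Fq - 1) = 1 :=
      FiniteField.pow_card_sub_one_eq_one (-1) (neg_ne_zero.2 one_ne_zero)
    have h2 := congrArg (algebraMap Fq (E ⊗[Fq] F)) h1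
    rw [map_pow, map_neg, map_one, ← hq] at h2
    exact h2
  have hPP : aeval (TM Fq E F) ((PP q d k θ).map (s : E →+* E)) =
      ∏ i ∈ range d, (TM Fq E F - (θ ^ (q ^ (i + 1))) ⊗ₜ[Fq] (1 : F)) ^ (q - 1 - dg q k i) := by
    unfold PP
    rw [Polynomial.map_prod, map_prod]
    apply Finset.prod_congr rfl
    intro i _
    rw [Polynomial.map_pow, map_pow, Polynomial.map_sub, map_X, map_C, map_sub, aeval_X, aeval_C]
    congr 2
    have h1 : (s : E →+* E) (θ ^ (q ^ i)) = θ ^ (q ^ (i + 1)) := by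
      change s (θ ^ (q ^ i)) = _
      rw [hs, ← pow_mul, ← pow_succ]
    rw [h1]
    rfl
  have key : W ^ (q - 1) * ∏ i ∈ range d, g (i + 1) ^ dg q k i =
      (∏ i ∈ range d, g i ^ dg q k i) ^ q *
        aeval (TM Fq E F) ((PP q d k θ).map (s : E →+* E)) := by
    rw [hPP, hWprod, ← Finset.prod_pow, ← Finset.prod_mul_distrib, ← Finset.prod_pow,
      ← Finset.prod_mul_distrib]
    have h1 : ∀ i ∈ range d, (TM Fq E F - (θ ^ (q ^ (i + 1))) ⊗ₜ[Fq] (1 : F)) ^ (q - 1) *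
        g (i + 1) ^ dg q k i =
        (-1) ^ dg q k i * ((g i ^ dg q k i) ^ q *
          (TM Fq E F - (θ ^ (q ^ (i + 1))) ⊗ₜ[Fq] (1 : F)) ^ (q - 1 - dg q k i)) := by
      intro i _
      have h2 : dg q k i ≤ q - 1 := by
        unfold dg
        have := Nat.mod_lt (k / q ^ i) (by omega : 0 < q)
        omega
      have h3 : (g i ^ dg q k i) ^ q = (g i ^ q) ^ dg q k i := by
        rw [← pow_mul, ← pow_mul, mul_comm]
      have h4 : (TM Fq E F - (θ ^ (q ^ (i + 1))) ⊗ₜ[Fq] (1 : F)) ^ (q - 1) =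
          (TM Fq E F - (θ ^ (q ^ (i + 1))) ⊗ₜ[Fq] (1 : F)) ^ (dg q k i) *
          (TM Fq E F - (θ ^ (q ^ (i + 1))) ⊗ₜ[Fq] (1 : F)) ^ (q - 1 - dg q k i) := by
        rw [← pow_add, Nat.add_sub_cancel' h2]
      have h5 : (θ ^ (q ^ (i + 1))) ⊗ₜ[Fq] (1 : F) - TM Fq E F =
          (-1) * (TM Fq E F - (θ ^ (q ^ (i + 1))) ⊗ₜ[Fq] (1 : F)) := by ring
      have h6 : (-1 : E ⊗[Fq] F) ^ dg q k i * (-1) ^ dg q k i = 1 := by
        rw [← mul_pow]; simp
      rw [h3, g1' i, h4, h5, mul_pow, mul_pow]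
      linear_combination (- (TM Fq E F - (θ ^ (q ^ (i + 1))) ⊗ₜ[Fq] (1 : F)) ^ dg q k i *
        (TM Fq E F - (θ ^ (q ^ (i + 1))) ⊗ₜ[Fq] (1 : F)) ^ (q - 1 - dg q k i) *
        g (i + 1) ^ dg q k i) * h6
    rw [Finset.prod_congr rfl h1, Finset.prod_mul_distrib, Finset.prod_pow_eq_pow_sum, ← hdig,
      pow_mul, hneg, one_pow, one_mul]
  have hy : yM q d k w θ lm f = (∏ i ∈ range d, g i ^ dg q k i) * aeval (TM Fq E F) f * V := by
    rw [hg, hV]; rfl
  rw [hy, map_mul, map_mul, map_prod, phi_aeval]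
  have hV' : Algebra.TensorProduct.map s (AlgHom.id Fq F) V = V := by
    rw [hV, Algebra.TensorProduct.map_tmul, map_one]
    rfl
  have hprod : ∏ i ∈ range d, Algebra.TensorProduct.map s (AlgHom.id Fq F) (g i ^ dg q k i) =
      ∏ i ∈ range d, g (i + 1) ^ dg q k i := by
    apply Finset.prod_congr rfl
    intro i _
    rw [map_pow, g4']
  rw [hV', hprod]
  have hfin : (∏ i ∈ range d, g (i + 1) ^ dg q k i) *
      aeval (TM Fq E F) (f.map (s : E →+* E)) * V =
      (V * ∏ i ∈ range d, g i ^ dg q k i) ^ (p ^ f₀) *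
        aeval (TM Fq E F) ((f * PP q d k θ).map (s : E →+* E)) := by
    rw [← hqp, Polynomial.map_mul, map_mul, mul_pow]
    have hVq : V ^ q = V ^ (q - 1) * V := by
      rw [← pow_succ, Nat.sub_add_cancel (by omega)]
    have hWVq : W ^ (q - 1) * V ^ (q - 1) = 1 := by rw [← mul_pow, hWV, one_pow]
    rw [hVq]
    linear_combination (- (∏ i ∈ range d, g (i + 1) ^ dg q k i) *
        aeval (TM Fq E F) (f.map (s : E →+* E)) * V) * hWVq +
      (V ^ (q - 1) * V * aeval (TM Fq E F) (f.map (s : E →+* E))) * key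
  rw [hfin, cm_iter_mul hCM2, claimC hp hqp s hC hCM1 hs, hf]
  ring

end Run7.h688.GK
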