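import Pool.Agent.Run7.h688.GK.TR

/-!
# GK: the piece EUL (logarithmic derivative of an Euler product)
-/

set_option autoImplicit false

namespace Run7.h688.GK

open Polynomial Finset Run7.h400.GK

section mp

variable {Fq : Type} [Field Fq]

theorem mp_monic {j : ℕ} (c : Fin j → Fq) : (mp c).Monic :=
  monic_X_pow_add (degree_sum_fin_lt c)

theorem mp_natDegree {j : ℕ} (c : Fin j → Fq) : (mp c).natDegree = j := by
  have h1 : (mp c).degree = (j : WithBot ℕ) := by
    unfold mp
    rw [degree_add_eq_left_of_degree_lt, degree_X_pow]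
    rw [degree_X_pow]
    exact degree_sum_fin_lt c
  exact natDegree_eq_of_degree_eq_some h1

theorem mp_coeff {j : ℕ} (c : Fin j → Fq) (i : Fin j) : (mp c).coeff i = c i := by
  unfold mp
  rw [coeff_add, coeff_X_pow, if_neg (by have := i.2; omega), zero_add, finsetSum_coeff]
  have h1 : ∀ k ∈ (Finset.univ : Finset (Fin j)), (C (c k) * X ^ (k : ℕ) : Fq[X]).coeff i =
      if k = i then c k else 0 := by
    intro k _
    rw [coeff_C_mul, coeff_X_pow]
    by_cases h : k = i
    · subst h; simp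
    · rw [if_neg, if_neg h, mul_zero]
      intro h2
      exact h (Fin.ext h2.symm)
  rw [Finset.sum_congr rfl h1, Finset.sum_ite_eq']
  simp

theorem mp_inj {j : ℕ} {c d : Fin j → Fq} (h : mp c = mp d) : c = d := by
  funext i
  rw [← mp_coeff c i, ← mp_coeff d i, h]

theorem mp_surj {j : ℕ} {g : Fq[X]} (hg : g.Monic) (hd : g.natDegree = j) :
    mp (fun i : Fin j => g.coeff i) = g := by
  subst hd
  conv_rhs => rw [hg.as_sum]
  unfold mp
  rw [Fin.sum_univ_eq_sum_range (fun i => C (g.coeff i) * X ^ i)]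

variable {Kb R : Type} [Field Kb] [Algebra Fq Kb] [CommRing R]

theorem wt_mul (φ : Kb → R) {f g : Fq[X]} (hf : f ≠ 0) (hg : g ≠ 0) :
    wt φ (f * g) = wt φ f * wt φ g := by
  unfold wt
  rw [Polynomial.map_mul, roots_mul, Multiset.map_add, Multiset.prod_add]
  exact mul_ne_zero (Polynomial.map_ne_zero hf) (Polynomial.map_ne_zero hg)

open Classical in
theorem sum_dvd [Fintype Fq] (φ : Kb → R) {u : Fq[X]} (hu : u.Monic) {N k : ℕ}
    (hk : u.natDegree + k = N) :
    ∑ c : Fin N → Fq, (if u ∣ mp c then wt φ (mp c) else 0) =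
      wt φ u * ∑ b : Fin k → Fq, wt φ (mp b) := by
  rw [← Finset.sum_filter, Finset.mul_sum]
  symm
  have key : ∀ b : Fin k → Fq, mp (fun i : Fin N => (u * mp b).coeff i) = u * mp b := by
    intro b
    apply mp_surj (hu.mul (mp_monic b))
    rw [hu.natDegree_mul (mp_monic b), mp_natDegree, hk]
  refine Finset.sum_bij (fun b _ => fun i : Fin N => (u * mp b).coeff i) ?_ ?_ ?_ ?_
  · intro b _
    rw [Finset.mem_filter, key b]
    exact ⟨Finset.mem_univ _, dvd_mul_right _ _⟩
  · intro b _ b' _ hbb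
    have h1 : u * mp b = u * mp b' := by
      rw [← key b, ← key b']
      exact congrArg mp hbb
    exact mp_inj (mul_left_cancel₀ hu.ne_zero h1)
  · intro c hc
    obtain ⟨g, hg⟩ := (Finset.mem_filter.1 hc).2
    have hgm : g.Monic := by
      have h1 : (u * g).Monic := by rw [← hg]; exact mp_monic c
      exact hu.of_mul_monic_left h1
    have hgd : g.natDegree = k := by
      have h1 : (u * g).natDegree = N := by rw [← hg]; exact mp_natDegree c
      rw [hu.natDegree_mul hgm] at h1
      omega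
    refine ⟨fun i => g.coeff i, Finset.mem_univ _, ?_⟩
    apply mp_inj
    rw [key, mp_surj hgm hgd, hg]
  · intro b _
    rw [key b, wt_mul φ hu.ne_zero (mp_monic b).ne_zero]

end mp

section frob

variable {Fq Kb : Type} [Field Fq] [Fintype Fq] [Field Kb] [Algebra Fq Kb]

theorem iter_pow (q : ℕ) (ρ : Kb) (l : ℕ) : (fun x : Kb => x ^ q)^[l] ρ = ρ ^ (q ^ l) := by
  rw [pow_iterate]

theorem mem_range_alg {a : Kb} (ha : a ^ Fintype.card Fq = a) :
    ∃ b : Fq, algebraMap Fq Kb b = a := by
  classical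
  have hq : 1 < Fintype.card Fq := Fintype.one_lt_card
  have h1 : (X ^ Fintype.card Fq - X : Kb[X]) ≠ 0 := FiniteField.X_pow_card_sub_X_ne_zero Kb hq
  have h0 : ∀ x : Kb, x ∈ (X ^ Fintype.card Fq - X : Kb[X]).roots.toFinset ↔
      x ^ Fintype.card Fq = x := by
    intro x
    rw [Multiset.mem_toFinset, mem_roots h1]
    simp [IsRoot, sub_eq_zero]
  have h2 : (Finset.univ.image (algebraMap Fq Kb)) ⊆
      (X ^ Fintype.card Fq - X : Kb[X]).roots.toFinset := by
    intro x hx
    obtain ⟨y, _, rfl⟩ := Finset.mem_image.1 hx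
    rw [h0, ← map_pow, FiniteField.pow_card]
  have h3 : (X ^ Fintype.card Fq - X : Kb[X]).roots.toFinset.card ≤ Fintype.card Fq := by
    refine (Multiset.toFinset_card_le _).trans ((card_roots' _).trans ?_)
    rw [FiniteField.X_pow_card_sub_X_natDegree_eq Kb hq]
  have h4 : (Finset.univ.image (algebraMap Fq Kb)).card = Fintype.card Fq := by
    rw [Finset.card_image_of_injective _ (algebraMap Fq Kb).injective]
    rfl
  have h5 := Finset.eq_of_subset_of_card_le h2 (by omega)
  have h6 : a ∈ Finset.univ.image (algebraMap Fq Kb) := by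
    rw [h5, h0]
    exact ha
  obtain ⟨y, _, hy⟩ := Finset.mem_image.1 h6
  exact ⟨y, hy⟩

theorem exists_u {ρ : Kb} {m : ℕ} (h : ρ ^ (Fintype.card Fq ^ m) = ρ) :
    ∃ u : Fq[X], u.Monic ∧ u.natDegree = m ∧
      u.map (algebraMap Fq Kb) = ∏ l ∈ range m, (X - C (ρ ^ (Fintype.card Fq ^ l))) := by
  obtain ⟨U, hU⟩ : ∃ U : Kb[X], U = ∏ l ∈ range m, (X - C (ρ ^ (Fintype.card Fq ^ l))) := ⟨_, rfl⟩
  have hmon : U.Monic := by
    rw [hU]; exact monic_prod_of_monic _ _ fun l _ => monic_X_sub_C _
  have hdeg : U.natDegree = m := by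
    rw [hU, natDegree_prod_of_monic _ _ fun l _ => monic_X_sub_C _,
      Finset.sum_congr rfl fun l _ => natDegree_X_sub_C _]
    simp
  have hinv : U.map (FiniteField.frobeniusAlgHom Fq Kb : Kb →+* Kb) = U := by
    rw [hU, Polynomial.map_prod]
    have h1 : ∀ l ∈ range m, (X - C (ρ ^ (Fintype.card Fq ^ l)) : Kb[X]).map
        (FiniteField.frobeniusAlgHom Fq Kb : Kb →+* Kb) =
        X - C (ρ ^ (Fintype.card Fq ^ (l + 1))) := by
      intro l _
      rw [Polynomial.map_sub, map_X, map_C]
      congr 2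
      change (ρ ^ (Fintype.card Fq ^ l)) ^ Fintype.card Fq = _
      rw [← pow_mul, pow_succ]
    rw [Finset.prod_congr rfl h1]
    rcases m with _ | k
    · simp
    · rw [Finset.prod_range_succ, h, Finset.prod_range_succ' _ k]
      simp
  have hl : U ∈ lifts (algebraMap Fq Kb) := by
    rw [lifts_iff_coeff_lifts]
    intro n
    have h1 : (U.map (FiniteField.frobeniusAlgHom Fq Kb : Kb →+* Kb)).coeff n = U.coeff n := by
      rw [hinv]
    rw [coeff_map] at h1
    exact mem_range_alg h1
  obtain ⟨u, hu1, hu2, hu3⟩ := lifts_and_natDegree_eq_and_monic hl hmon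
  exact ⟨u, hu3, by rw [hu2, hdeg], by rw [hu1, hU]⟩

omit [Field Kb] in
theorem prod_periodic {M : Type} [CommMonoid M] (G : Kb → M) (f : Kb → Kb) (ρ : Kb) (δ : ℕ)
    (hδ : f^[δ] ρ = ρ) (e : ℕ) :
    ∏ l ∈ range (e * δ), G (f^[l] ρ) = (∏ l ∈ range δ, G (f^[l] ρ)) ^ e := by
  induction e with
  | zero => simp
  | succ e ih =>
    have h1 : (e + 1) * δ = e * δ + δ := by ring
    rw [h1, Finset.prod_range_add, ih, pow_succ]
    congr 1
    apply Finset.prod_congr rfl
    intro x _
    have h2 : f^[e * δ] ρ = ρ := by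
      rw [mul_comm, Function.iterate_mul]
      exact Function.iterate_fixed hδ e
    rw [add_comm, Function.iterate_add_apply, h2]

theorem pow_dvd_frob {c : Fq[X]} {x : Kb} {e : ℕ}
    (h : (X - C x) ^ e ∣ c.map (algebraMap Fq Kb)) (l : ℕ) :
    (X - C (x ^ (Fintype.card Fq ^ l))) ^ e ∣ c.map (algebraMap Fq Kb) := by
  induction l with
  | zero => simpa using h
  | succ l ih =>
    have h1 := Polynomial.map_dvd (FiniteField.frobeniusAlgHom Fq Kb : Kb →+* Kb) ih
    rw [Polynomial.map_pow, Polynomial.map_sub, map_X, map_C, Polynomial.map_map] at h1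
    have h2 : (FiniteField.frobeniusAlgHom Fq Kb : Kb →+* Kb).comp (algebraMap Fq Kb) =
        algebraMap Fq Kb := by
      ext y
      exact (FiniteField.frobeniusAlgHom Fq Kb).commutes y
    rw [h2] at h1
    have h3 : (FiniteField.frobeniusAlgHom Fq Kb : Kb →+* Kb) (x ^ (Fintype.card Fq ^ l)) =
        x ^ (Fintype.card Fq ^ (l + 1)) := by
      change (x ^ (Fintype.card Fq ^ l)) ^ Fintype.card Fq = _
      rw [← pow_mul, pow_succ]
    rw [h3] at h1
    exact h1

theorem frob_inj : Function.Injective (fun x : Kb => x ^ Fintype.card Fq) := by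
  intro x y hxy
  exact (FiniteField.frobeniusAlgHom Fq Kb : Kb →+* Kb).injective hxy

open Classical in
theorem rootMult_eq {N : ℕ} {c : Fq[X]} (hc : c.Monic) (hN : c.natDegree = N) (ρ : Kb) :
    (c.map (algebraMap Fq Kb)).rootMultiplicity ρ =
      ((range N).filter fun r => ρ ^ (Fintype.card Fq ^ (r + 1)) = ρ ∧
        (∏ l ∈ range (r + 1), (X - C (ρ ^ (Fintype.card Fq ^ l)))) ∣
          c.map (algebraMap Fq Kb)).card := by
  obtain ⟨g, hg⟩ : ∃ g, g = c.map (algebraMap Fq Kb) := ⟨_, rfl⟩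
  obtain ⟨q, hq⟩ : ∃ q, q = Fintype.card Fq := ⟨_, rfl⟩
  have hgm : g.Monic := by rw [hg]; exact hc.map _
  have hg0 : g ≠ 0 := hgm.ne_zero
  have hgd : g.natDegree = N := by rw [hg, natDegree_map, hN]
  obtain ⟨e0, he0⟩ : ∃ e0, e0 = g.rootMultiplicity ρ := ⟨_, rfl⟩
  have hdvd0 : ∀ r, (X - C ρ : Kb[X]) ∣ ∏ l ∈ range (r + 1), (X - C (ρ ^ (q ^ l))) := by
    intro r
    have h1 := Finset.dvd_prod_of_mem (fun l => (X - C (ρ ^ (q ^ l)) : Kb[X]))
      (Finset.mem_range.2 (Nat.succ_pos r))
    simpa using h1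
  rw [← hg, ← hq, ← he0]
  by_cases hroot : g.IsRoot ρ
  swap
  · have h1 : e0 = 0 := by rw [he0]; exact rootMultiplicity_eq_zero hroot
    rw [h1]
    symm
    rw [Finset.card_eq_zero, Finset.filter_eq_empty_iff]
    rintro r _ ⟨_, h2⟩
    exact hroot (dvd_iff_isRoot.1 ((hdvd0 r).trans h2))
  · obtain ⟨f, hf⟩ : ∃ f : Kb → Kb, f = fun x => x ^ q := ⟨_, rfl⟩
    have hfi : Function.Injective f := by rw [hf, hq]; exact frob_inj
    have hfl : ∀ l, f^[l] ρ = ρ ^ (q ^ l) := by intro l; rw [hf]; exact iter_pow q ρ l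
    have hN0 : 0 < N := by
      rcases Nat.eq_zero_or_pos N with h | h
      · exfalso
        rw [h] at hgd
        rw [hgm.natDegree_eq_zero.1 hgd] at hroot
        simp [IsRoot] at hroot
      · exact h
    -- all conjugates are roots
    have hroots : ∀ l, g.IsRoot (f^[l] ρ) := by
      intro l
      have h1 : (X - C ρ) ^ 1 ∣ c.map (algebraMap Fq Kb) := by
        rw [pow_one, ← hg]; exact dvd_iff_isRoot.2 hroot
      have h2 := pow_dvd_frob h1 l
      rw [pow_one, ← hg, ← hq] at h2
      rw [hfl]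
      exact dvd_iff_isRoot.1 h2
    have hper : f^[Function.minimalPeriod f ρ] ρ = ρ := Function.iterate_minimalPeriod
    have hpos : 0 < Function.minimalPeriod f ρ := by
      have h1 : g.roots.toFinset.card < (range (N + 1)).card := by
        rw [Finset.card_range]
        have := (Multiset.toFinset_card_le g.roots).trans (card_roots' g)
        omega
      have h2 : ∀ l ∈ range (N + 1), f^[l] ρ ∈ g.roots.toFinset := by
        intro l _
        rw [Multiset.mem_toFinset, mem_roots hg0]
        exact hroots l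
      obtain ⟨i, _, j, _, hij, hfij⟩ := Finset.exists_ne_map_eq_of_card_lt_of_maps_to h1 h2
      have key : ∀ i j : ℕ, i < j → f^[i] ρ = f^[j] ρ → 0 < Function.minimalPeriod f ρ := by
        intro i j hij h3
        have h4 : f^[i] ρ = f^[i] (f^[j - i] ρ) := by
          rw [← Function.iterate_add_apply, Nat.add_sub_cancel' hij.le]
          exact h3
        have h5 : f^[j - i] ρ = ρ := (hfi.iterate i h4).symm
        exact Function.IsPeriodicPt.minimalPeriod_pos (by omega : 0 < j - i) h5
      rcases lt_or_gt_of_ne hij with h3 | h3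
      · exact key i j h3 hfij
      · exact key j i h3 hfij.symm
    obtain ⟨δ, hδ⟩ : ∃ δ, δ = Function.minimalPeriod f ρ := ⟨_, rfl⟩
    rw [← hδ] at hper hpos
    obtain ⟨V, hV⟩ : ∃ V : Kb[X], V = ∏ l ∈ range δ, (X - C (f^[l] ρ)) := ⟨_, rfl⟩
    have hVm : V.Monic := by rw [hV]; exact monic_prod_of_monic _ _ fun l _ => monic_X_sub_C _
    have hVd : V.natDegree = δ := by
      rw [hV, natDegree_prod_of_monic _ _ fun l _ => monic_X_sub_C _]; simp
    have hVe : ∀ e, V ^ e ∣ g ↔ e ≤ e0 := by
      intro e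
      rw [he0, le_rootMultiplicity_iff hg0]
      constructor
      · intro h1
        refine dvd_trans (pow_dvd_pow_of_dvd ?_ e) h1
        rw [hV]
        have h2 := Finset.dvd_prod_of_mem (fun l => (X - C (f^[l] ρ) : Kb[X]))
          (Finset.mem_range.2 hpos)
        simpa using h2
      · intro h1
        rw [hV, ← Finset.prod_pow]
        apply Finset.prod_dvd_of_coprime
        · intro i hi j hj hij
          apply IsCoprime.pow
          apply isCoprime_X_sub_C_of_isUnit_sub
          rw [isUnit_iff_ne_zero, sub_ne_zero]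
          intro h2
          apply hij
          apply Function.iterate_injOn_Iio_minimalPeriod (f := f) (x := ρ)
          · rw [Set.mem_Iio, ← hδ]; exact Finset.mem_range.1 (Finset.mem_coe.1 hi)
          · rw [Set.mem_Iio, ← hδ]; exact Finset.mem_range.1 (Finset.mem_coe.1 hj)
          · exact h2
        · intro i _
          have h2 : (X - C ρ) ^ e ∣ c.map (algebraMap Fq Kb) := by rw [← hg]; exact h1
          have h3 := pow_dvd_frob h2 i
          rw [← hg, ← hq] at h3
          rw [hfl]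
          exact h3
    have hprod : ∀ e, ∏ l ∈ range (e * δ), (X - C (ρ ^ (q ^ l)) : Kb[X]) = V ^ e := by
      intro e
      have h1 := prod_periodic (fun x : Kb => (X - C x : Kb[X])) f ρ δ hper e
      rw [hV, ← h1]
      apply Finset.prod_congr rfl
      intro l _
      rw [hfl]
    have hfil : ((range N).filter fun r => ρ ^ (q ^ (r + 1)) = ρ ∧
        (∏ l ∈ range (r + 1), (X - C (ρ ^ (q ^ l)))) ∣ g) =
        (range e0).image fun e => (e + 1) * δ - 1 := by
      ext r
      rw [Finset.mem_filter, Finset.mem_image, Finset.mem_range]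
      constructor
      · rintro ⟨h1, h2, h3⟩
        have h4 : Function.IsPeriodicPt f (r + 1) ρ := by
          change f^[r + 1] ρ = ρ
          rw [hfl]; exact h2
        have h5 : δ ∣ r + 1 := by rw [hδ]; exact h4.minimalPeriod_dvd
        obtain ⟨e, he⟩ := h5
        have h6 : r + 1 = e * δ := by rw [he, mul_comm]
        rw [h6, hprod, hVe] at h3
        have h7 : e ≠ 0 := by
          rintro rfl
          omega
        refine ⟨e - 1, Finset.mem_range.2 (by omega), ?_⟩
        rw [Nat.sub_add_cancel (by omega : 1 ≤ e)]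
        omega
      · rintro ⟨e, he, rfl⟩
        rw [Finset.mem_range] at he
        have h1 : (e + 1) * δ - 1 + 1 = (e + 1) * δ := by
          have : 0 < (e + 1) * δ := by positivity
          omega
        have h2 : V ^ (e + 1) ∣ g := (hVe (e + 1)).2 (by omega)
        rw [h1, hprod]
        refine ⟨?_, ?_, h2⟩
        · have h3 := natDegree_le_of_dvd h2 hg0
          rw [hVm.natDegree_pow, hVd, hgd] at h3
          omega
        · rw [← hfl, mul_comm, Function.iterate_mul]
          exact Function.iterate_fixed hper (e + 1)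
    rw [hfil, Finset.card_image_of_injOn, Finset.card_range]
    intro a _ b _ hab
    have h1 : (a + 1) * δ - 1 = (b + 1) * δ - 1 := hab
    have h2 : 0 < (a + 1) * δ := by positivity
    have h3 : 0 < (b + 1) * δ := by positivity
    have h4 : (a + 1) * δ = (b + 1) * δ := by omega
    have := Nat.eq_of_mul_eq_mul_right hpos h4
    omega

end frob

open Classical in
theorem ad_eq {Fq Kb R : Type} [Field Fq] [Fintype Fq] [Field Kb] [Algebra Fq Kb] [CommRing R]
    (ψ : Kb → R) {N : ℕ} {c : Fq[X]} (hc : c.Monic) (hN : c.natDegree = N) :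
    ad ψ c = ∑ r ∈ range N, ∑ ρ ∈ fr Kb (Fintype.card Fq) (r + 1),
      if (∏ l ∈ range (r + 1), (X - C (ρ ^ (Fintype.card Fq ^ l)))) ∣
          c.map (algebraMap Fq Kb) then ψ ρ else 0 := by
  have hq : 1 < Fintype.card Fq := Fintype.one_lt_card
  have hg0 : c.map (algebraMap Fq Kb) ≠ 0 := (hc.map _).ne_zero
  unfold ad
  rw [Finset.sum_multiset_map_count]
  have h1 : ∀ ρ ∈ (c.map (algebraMap Fq Kb)).roots.toFinset,
      (c.map (algebraMap Fq Kb)).roots.count ρ • ψ ρ =
      ∑ r ∈ range N, if (ρ ^ (Fintype.card Fq ^ (r + 1)) = ρ ∧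
        (∏ l ∈ range (r + 1), (X - C (ρ ^ (Fintype.card Fq ^ l)))) ∣
          c.map (algebraMap Fq Kb)) then ψ ρ else 0 := by
    intro ρ _
    rw [count_roots, rootMult_eq hc hN ρ, ← Finset.sum_filter, Finset.sum_const]
  rw [Finset.sum_congr rfl h1, Finset.sum_comm]
  apply Finset.sum_congr rfl
  intro r _
  rw [← Finset.sum_filter, ← Finset.sum_filter]
  apply Finset.sum_congr _ fun _ _ => rfl
  ext ρ
  rw [Finset.mem_filter, Finset.mem_filter, mem_fr (Nat.one_lt_pow (by omega) hq),
    Multiset.mem_toFinset, mem_roots hg0]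
  constructor
  · rintro ⟨_, h2, h3⟩
    exact ⟨h2, h3⟩
  · rintro ⟨h2, h3⟩
    refine ⟨?_, h2, h3⟩
    apply dvd_iff_isRoot.1
    refine dvd_trans ?_ h3
    have h4 := Finset.dvd_prod_of_mem (fun l => (X - C (ρ ^ (Fintype.card Fq ^ l)) : Kb[X]))
      (Finset.mem_range.2 (Nat.succ_pos r))
    simpa using h4

theorem t_EUL : S_EUL := by
  classical
  intro Fq Kb R _ _ _ _ _ _ φ ψ N
  have hq : 1 < Fintype.card Fq := Fintype.one_lt_card
  have h1 : ∀ c ∈ (Finset.univ : Finset (Fin N → Fq)), ad ψ (mp c) * wt φ (mp c) =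
      ∑ r ∈ range N, ∑ ρ ∈ fr Kb (Fintype.card Fq) (r + 1),
        ψ ρ * (if (∏ l ∈ range (r + 1), (X - C (ρ ^ (Fintype.card Fq ^ l)))) ∣
          (mp c).map (algebraMap Fq Kb) then wt φ (mp c) else 0) := by
    intro c _
    rw [ad_eq ψ (mp_monic c) (mp_natDegree c), Finset.sum_mul]
    apply Finset.sum_congr rfl
    intro r _
    rw [Finset.sum_mul]
    apply Finset.sum_congr rfl
    intro ρ _
    split_ifs
    · rfl
    · simp
  rw [Finset.sum_congr rfl h1, Finset.sum_comm]
  apply Finset.sum_congr rfl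
  intro r hr
  rw [Finset.mem_range] at hr
  rw [Finset.sum_comm, Finset.mul_sum]
  apply Finset.sum_congr rfl
  intro ρ hρ
  rw [mem_fr (Nat.one_lt_pow (by omega) hq)] at hρ
  obtain ⟨u, hu1, hu2, hu3⟩ := exists_u hρ
  rw [← Finset.mul_sum]
  have h2 : ∀ c ∈ (Finset.univ : Finset (Fin N → Fq)),
      (if (∏ l ∈ range (r + 1), (X - C (ρ ^ (Fintype.card Fq ^ l)))) ∣
          (mp c).map (algebraMap Fq Kb) then wt φ (mp c) else 0) =
      if u ∣ mp c then wt φ (mp c) else 0 := by
    intro c _
    rw [← hu3, Polynomial.map_dvd_map']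
  rw [Finset.sum_congr rfl h2, sum_dvd φ hu1 (k := N - 1 - r) (by omega)]
  have h3 : wt φ u = ∏ l ∈ range (r + 1), φ (ρ ^ (Fintype.card Fq ^ l)) := by
    unfold wt
    rw [hu3]
    have h4 : (∏ l ∈ range (r + 1), (X - C (ρ ^ (Fintype.card Fq ^ l)) : Kb[X])) =
        (((range (r + 1)).val.map fun l => ρ ^ (Fintype.card Fq ^ l)).map
          fun a => X - C a).prod := by
      rw [Multiset.map_map]
      rfl
    rw [h4, roots_multiset_prod_X_sub_C, Multiset.map_map]
    rfl
  rw [h3]
  ring

end Run7.h688.GK
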