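import Pool.Agent.Run7.h400.GK.StmC

/-!
# GK: the pieces TR0 and TR1 (power sums over finite fields and their multiplicative lifts)
-/

set_option autoImplicit false

namespace Run7.h688.GK

open Polynomial Finset Run7.h400.GK

theorem card_cast (Fq Kb : Type) [Field Fq] [Fintype Fq] [Field Kb] [Algebra Fq Kb] :
    ((Fintype.card Fq : ℕ) : Kb) = 0 := by
  have h : ((Fintype.card Fq : ℕ) : Fq) = 0 := FiniteField.cast_card_eq_zero Fq
  have h2 := congrArg (algebraMap Fq Kb) h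
  rw [map_natCast, map_zero] at h2
  exact h2

theorem mem_fr {Kb : Type} [Field Kb] {q r : ℕ} (h : 1 < q ^ r) (ρ : Kb) :
    ρ ∈ fr Kb q r ↔ ρ ^ (q ^ r) = ρ := by
  classical
  have h1 : (X ^ (q ^ r) - X : Kb[X]) ≠ 0 := FiniteField.X_pow_card_sub_X_ne_zero Kb h
  unfold fr
  rw [Multiset.mem_toFinset, mem_roots h1]
  simp [IsRoot, sub_eq_zero]

theorem fr_eq {Kb : Type} [Field Kb] {q r : ℕ} (h : 1 < q ^ r) {ζ : Kb}
    (hζ : IsPrimitiveRoot ζ (q ^ r - 1)) [DecidableEq Kb] :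
    fr Kb q r = insert 0 ((range (q ^ r - 1)).image fun i => ζ ^ i) := by
  obtain ⟨N, hN⟩ : ∃ N, N = q ^ r - 1 := ⟨_, rfl⟩
  have hN1 : q ^ r = N + 1 := by omega
  have : NeZero N := ⟨by omega⟩
  ext ρ
  rw [mem_fr h, Finset.mem_insert, Finset.mem_image]
  rw [← hN] at hζ ⊢
  rw [hN1]
  constructor
  · intro h1
    by_cases h0 : ρ = 0
    · exact Or.inl h0
    · right
      have h2 : ρ ^ N = 1 := by
        have h3 : ρ ^ N * ρ = 1 * ρ := by rw [← pow_succ, h1, one_mul]
        exact mul_right_cancel₀ h0 h3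
      obtain ⟨i, hi, hi2⟩ := hζ.eq_pow_of_pow_eq_one h2
      exact ⟨i, Finset.mem_range.2 hi, hi2⟩
  · rintro (h1 | ⟨i, hi, rfl⟩)
    · rw [h1]
      exact zero_pow (by omega)
    · rw [pow_succ, ← pow_mul, mul_comm i N, pow_mul, hζ.pow_eq_one, one_pow, one_mul]

/-- power sums of the lifts -/
theorem powsum {Kb O : Type} [Field Kb] [CommRing O] [IsDomain O] (t : Kb →*₀ O)
    (ht : Function.Injective t) {q r : ℕ} (h : 1 < q ^ r) {ζ : Kb}
    (hζ : IsPrimitiveRoot ζ (q ^ r - 1)) (e : ℕ) :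
    ∑ ρ ∈ fr Kb q r, t ρ ^ e =
      (if e = 0 then 1 else 0) + (if (q ^ r - 1) ∣ e then ((q : O) ^ r - 1) else 0) := by
  classical
  obtain ⟨N, hN⟩ : ∃ N, N = q ^ r - 1 := ⟨_, rfl⟩
  have hN1 : q ^ r = N + 1 := by omega
  have hN0 : 0 < N := by omega
  have hc : ((q : O) ^ r - 1) = (N : O) := by
    have : ((q ^ r : ℕ) : O) = ((N + 1 : ℕ) : O) := by rw [hN1]
    push_cast at this
    rw [this]; ring
  rw [fr_eq h hζ, Finset.sum_insert, hc]
  · congr 1
    · rw [map_zero]
      by_cases he : e = 0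
      · rw [he]; simp
      · rw [if_neg he, zero_pow he]
    · rw [← hN] at hζ ⊢
      rw [Finset.sum_image]
      · have h1 : ∀ i, t (ζ ^ i) ^ e = (t (ζ ^ e)) ^ i := by
          intro i
          rw [map_pow, map_pow, ← pow_mul, ← pow_mul, mul_comm]
        simp only [h1]
        by_cases hd : N ∣ e
        · rw [if_pos hd]
          have h2 : ζ ^ e = 1 := (hζ.pow_eq_one_iff_dvd e).2 hd
          rw [h2, map_one]
          simp
        · rw [if_neg hd]
          have h2 : ζ ^ e ≠ 1 := fun h3 => hd ((hζ.pow_eq_one_iff_dvd e).1 h3)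
          have h3 : t (ζ ^ e) ≠ 1 := by
            intro h4
            apply h2
            apply ht
            rw [h4, map_one]
          have h4 : (∑ i ∈ range N, t (ζ ^ e) ^ i) * (t (ζ ^ e) - 1) = t (ζ ^ e) ^ N - 1 :=
            geom_sum_mul _ _
          have h5 : t (ζ ^ e) ^ N = 1 := by
            rw [← map_pow, ← pow_mul, mul_comm e N, pow_mul, hζ.pow_eq_one, one_pow, map_one]
          rw [h5, sub_self] at h4
          rcases mul_eq_zero.1 h4 with h6 | h6
          · exact h6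
          · exact absurd (sub_eq_zero.1 h6) h3
      · intro i hi j hj hij
        exact hζ.pow_inj (Finset.mem_range.1 (Finset.mem_coe.1 hi))
          (Finset.mem_range.1 (Finset.mem_coe.1 hj)) hij
  · intro h1
    obtain ⟨i, hi, hi2⟩ := Finset.mem_image.1 h1
    have : ζ ≠ 0 := hζ.ne_zero (by omega)
    exact absurd hi2 (pow_ne_zero _ this)

/-- sums of the values of a polynomial -/
theorem polysum {Kb O : Type} [Field Kb] [CommRing O] [IsDomain O] (t : Kb →*₀ O)
    (ht : Function.Injective t) {q r R : ℕ} (h : 1 < q ^ r) {ζ : Kb}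
    (hζ : IsPrimitiveRoot ζ (q ^ r - 1)) (g : O[X]) (hg : g.natDegree ≤ (q ^ r - 1) * R) :
    ∑ ρ ∈ fr Kb q r, g.eval (t ρ) =
      (q : O) ^ r * g.coeff 0 +
        ((q : O) ^ r - 1) * ∑ i ∈ range R, g.coeff ((q ^ r - 1) * (i + 1)) := by
  classical
  have h1 : ∀ ρ ∈ fr Kb q r, g.eval (t ρ) =
      ∑ e ∈ range ((q ^ r - 1) * R + 1), g.coeff e * t ρ ^ e := fun ρ _ =>
    Polynomial.eval_eq_sum_range' (by omega) _
  rw [Finset.sum_congr rfl h1, Finset.sum_comm]
  have h2 : ∀ e ∈ range ((q ^ r - 1) * R + 1), ∑ ρ ∈ fr Kb q r, g.coeff e * t ρ ^ e =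
      (if e = 0 then g.coeff 0 else 0) +
        ((q : O) ^ r - 1) * (if (q ^ r - 1) ∣ e then g.coeff e else 0) := by
    intro e _
    rw [← Finset.mul_sum, powsum t ht h hζ]
    by_cases he : e = 0
    · subst he
      simp
      ring
    · rw [if_neg he, if_neg he]
      by_cases hd : (q ^ r - 1) ∣ e
      · rw [if_pos hd, if_pos hd]; ring
      · rw [if_neg hd, if_neg hd]; ring
  rw [Finset.sum_congr rfl h2, Finset.sum_add_distrib, ← Finset.mul_sum, Finset.sum_ite_eq',
    if_pos (by simp), ← Finset.sum_filter]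
  have h3 : (range ((q ^ r - 1) * R + 1)).filter (fun e => (q ^ r - 1) ∣ e) =
      (range (R + 1)).image fun i => (q ^ r - 1) * i := by
    ext e
    rw [Finset.mem_filter, Finset.mem_image, Finset.mem_range]
    constructor
    · rintro ⟨h4, k, rfl⟩
      refine ⟨k, ?_, rfl⟩
      rw [Finset.mem_range]
      have h5 : (q ^ r - 1) * k ≤ (q ^ r - 1) * R := by omega
      have := Nat.le_of_mul_le_mul_left h5 (by omega)
      omega
    · rintro ⟨k, hk, rfl⟩
      rw [Finset.mem_range] at hk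
      refine ⟨?_, Dvd.intro _ rfl⟩
      have : (q ^ r - 1) * k ≤ (q ^ r - 1) * R := Nat.mul_le_mul_left _ (by omega)
      omega
  rw [h3, Finset.sum_image, Finset.sum_range_succ']
  · rw [mul_zero]; ring
  · intro i _ j _ hij
    exact Nat.eq_of_mul_eq_mul_left (by omega : 0 < q ^ r - 1) hij

/-- the degree of `P_r` -/
theorem natDegree_Pr {E : Type} [CommRing E] {q n : ℕ} (hq : 1 ≤ q) {P : E[X]}
    (hP : P.natDegree ≤ n * (q - 1)) (r : ℕ) : (Pr q P r).natDegree ≤ n * (q ^ r - 1) := by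
  induction r with
  | zero => simp [Pr]
  | succ r ih =>
    have h1 : Pr q P (r + 1) = Pr q P r * expand E (q ^ r) P := by
      unfold Pr; rw [Finset.prod_range_succ]
    rw [h1]
    refine natDegree_mul_le.trans ?_
    rw [natDegree_expand]
    have h2 : P.natDegree * q ^ r ≤ n * (q - 1) * q ^ r := Nat.mul_le_mul_right _ hP
    have h3 : n * (q ^ r - 1) + n * (q - 1) * q ^ r = n * (q ^ (r + 1) - 1) := by
      obtain ⟨a, rfl⟩ : ∃ a, q = a + 1 := ⟨q - 1, by omega⟩
      have h4 : 1 ≤ (a + 1) ^ r := Nat.one_le_pow _ _ (by omega)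
      obtain ⟨b, hb⟩ : ∃ b, (a + 1) ^ r = b + 1 := ⟨(a + 1) ^ r - 1, by omega⟩
      rw [pow_succ, hb]
      have h5 : (b + 1) * (a + 1) - 1 = b + a * (b + 1) := by
        have : (b + 1) * (a + 1) = b + a * (b + 1) + 1 := by ring
        omega
      rw [h5]
      simp only [Nat.add_sub_cancel]
      ring
    omega

/-- the constant coefficient of `P_r` -/
theorem coeff_zero_Pr {E : Type} [CommRing E] {q : ℕ} (hq : 1 ≤ q) (P : E[X]) (r : ℕ) :
    (Pr q P r).coeff 0 = P.coeff 0 ^ r := by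
  unfold Pr
  rw [Polynomial.coeff_zero_prod]
  have h1 : ∀ l ∈ range r, (expand E (q ^ l) P).coeff 0 = P.coeff 0 := by
    intro l _
    rw [coeff_expand (by positivity)]
    simp
  rw [Finset.prod_congr rfl h1]
  simp

/-- a primitive root of unity -/
theorem exists_prim (Fq Kb : Type) [Field Fq] [Fintype Fq] [Field Kb] [Algebra Fq Kb]
    [IsAlgClosed Kb] {q r : ℕ} (hq : q = Fintype.card Fq) (hr : 1 ≤ r) :
    1 < q ^ r ∧ ∃ ζ : Kb, IsPrimitiveRoot ζ (q ^ r - 1) := by
  have hq1 : 1 < q := by rw [hq]; exact Fintype.one_lt_card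
  have h1 : 1 < q ^ r := Nat.one_lt_pow (by omega) hq1
  refine ⟨h1, ?_⟩
  have h2 : ((q ^ r - 1 : ℕ) : Kb) = -1 := by
    rw [Nat.cast_sub (by omega)]
    push_cast
    have h3 : (q : Kb) = 0 := by rw [hq]; exact card_cast Fq Kb
    rw [h3, zero_pow (by omega)]
    ring
  have : NeZero ((q ^ r - 1 : ℕ) : Kb) := ⟨by rw [h2]; exact neg_ne_zero.2 one_ne_zero⟩
  exact HasEnoughRootsOfUnity.exists_primitiveRoot Kb (q ^ r - 1)

theorem t_TR0 : S_TR0 := by
  intro Fq Kb O _ _ _ _ _ _ _ t q n r P ht hq hn hP hr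
  obtain ⟨h1, ζ, hζ⟩ := exists_prim Fq Kb hq hr
  have hq1 : 1 < q := by rw [hq]; exact Fintype.one_lt_card
  have h2 := natDegree_Pr (by omega) hP r
  rw [polysum t ht (R := n) h1 hζ (Pr q P r) (by rw [mul_comm]; exact h2),
    coeff_zero_Pr (by omega)]

theorem t_TR1 : S_TR1 := by
  intro Fq Kb _ _ _ _ _ q n m R r P hq hn hP hR hr
  obtain ⟨h1, ζ, hζ⟩ := exists_prim Fq Kb hq hr
  have hq1 : 1 < q := by rw [hq]; exact Fintype.one_lt_card
  have h2 := natDegree_Pr (by omega) hP r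
  have h3 : (X ^ m * Pr q P r).natDegree ≤ (q ^ r - 1) * R := by
    refine natDegree_mul_le.trans ?_
    have h4 : (X ^ m : Kb[X]).natDegree ≤ m := natDegree_X_pow_le m
    have h5 : (q ^ r - 1) * (n + m) ≤ (q ^ r - 1) * R := Nat.mul_le_mul_left _ hR
    have h6 : m ≤ (q ^ r - 1) * m := Nat.le_mul_of_pos_left m (by omega)
    have h7 : (q ^ r - 1) * (n + m) = n * (q ^ r - 1) + (q ^ r - 1) * m := by ring
    omega
  have h4 := polysum (MonoidWithZeroHom.id Kb) Function.injective_id (R := R) h1 hζ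
    (X ^ m * Pr q P r) h3
  have h5 : (q : Kb) = 0 := by rw [hq]; exact card_cast Fq Kb
  rw [h5, zero_pow (by omega)] at h4
  simp only [MonoidWithZeroHom.id_apply, eval_mul, eval_pow, eval_X, zero_mul, zero_add, zero_sub,
    neg_mul, one_mul] at h4
  exact h4

end Run7.h688.GK
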